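import Pool.Agent.N209.GS.Def

/-!
# Families of varieties over finite fields and cycles of bounded degree: definitions
-/

set_option autoImplicit false

open CategoryTheory AlgebraicGeometry Filter Topology

universe u v

namespace Pool.Agent.N209.GS

open Pool.Agent.H914 Pool.Agent.H447 VarClass Obj WeilCohomology

/-- A family of varieties over the closed points of a scheme of finite type over the integers. -/
structure FibreFamily where
  /-- the set of closed points -/
  T : Type u
  /-- the Zariski topology on the set of closed points -/
  [top : TopologicalSpace T]
  /-- the algebraic closures of the residue fields; these are finite fields -/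
  κ : T → Type u
  [field : ∀ t, Field (κ t)]
  /-- the classes of varieties over the fields `κ t` -/
  vars : ∀ t, VarClass (κ t)
  /-- cycles on these varieties -/
  ops : ∀ t, CycleOps (vars t)
  /-- the cohomology theory over `κ t` -/
  W : ∀ t, WeilCohomology.{u, v} (ops t)
  /-- the geometric fibre of the family at `t` -/
  Z : ∀ t, (vars t).Obj
  /-- the set of closed points whose residue field is the `r`-th member of a sequence of finite
  fields whose orders tend to infinity (for example the prime fields, or the finite extensions of
  one finite field) -/
  pts : ℕ → Finset T
  /-- the complexity of a cycle `z` on `Z t × Z t`: the least `N` such that `z` is the quotient of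
  a difference of two effective cycles of degree at most `N` by a positive integer at most `N` -/
  cx : ∀ t, ((Z t).prod (Z t)).Cycles → ℕ

attribute [instance] FibreFamily.top FibreFamily.field

namespace FibreFamily

variable (F : FibreFamily.{u, v})

/-- There is a cycle of complexity at most `N` on `Z t × Z t` which acts as multiplication by the
rational number `f i` on `H^i(Z t)`, for all `i`. -/
def Has (N : ℕ) (f : ℕ → ℚ) (t : F.T) : Prop :=
  ∃ z, F.cx t z ≤ N ∧ ActsByScalars (F.W t) (F.Z t) f z

/-- For some `N` there is such a cycle of complexity at most `N` for all `t`. -/
def Bounded (f : ℕ → ℚ) : Prop := ∃ N, ∀ t, F.Has N f t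

/-- For some `N` there is such a cycle of complexity at most `N` for a Zariski dense set of closed
points `t`. -/
def BoundedOnDense (f : ℕ → ℚ) : Prop := ∃ N, Dense {t | F.Has N f t}

/-- The proportion of those members of the family over the `r`-th finite field for which there is
such a cycle of complexity at most `N`. -/
noncomputable def proportion (f : ℕ → ℚ) (N r : ℕ) : ℝ :=
  ({t | t ∈ F.pts r ∧ F.Has N f t}.ncard : ℝ) / ((F.pts r).card : ℝ)

/-- For every function `ψ` which tends to infinity, the proportion of those members of the family
over the `r`-th finite field for which there is such a cycle of complexity at most `ψ r` does not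
tend to zero. -/
def OftenSmall (f : ℕ → ℚ) : Prop :=
  ∀ ψ : ℕ → ℕ, Tendsto ψ atTop atTop → ¬ Tendsto (fun r => F.proportion f (ψ r) r) atTop (𝓝 0)

/-- `Z'` is the geometric generic fibre of the family `F`, with cohomology theory `W'`. The
properties are theorems. `spread`, `rare`: for every `N` the set of all points `t` for which there
is a cycle of complexity at most `N` as in `Has` is constructible (Hilbert schemes), so that it
contains the generic point if it contains a Zariski dense set of closed points; and if it does not
contain the generic point, then the proportion of its points over a finite field tends to zero with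
the order of the field (Lang and Weil). `specialize`: cycles specialise from the geometric generic
fibre to all fibres, with bounded degrees (Noetherian induction). -/
structure HasGenericFibre {k' : Type u} [Field k'] {𝒱' : VarClass k'} {ops' : CycleOps 𝒱'}
    (W' : WeilCohomology.{u, v} ops') (Z' : 𝒱'.Obj) : Prop where
  spread : ∀ f, F.BoundedOnDense f → ∃ z, ActsByScalars W' Z' f z
  rare : ∀ f, (∀ z, ¬ ActsByScalars W' Z' f z) →
    ∀ N, Tendsto (fun r => F.proportion f N r) atTop (𝓝 0)
  nonempty : ∀ᶠ r in atTop, (F.pts r).Nonempty
  specialize : ∀ f z, ActsByScalars W' Z' f z → F.Bounded f

end FibreFamily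

/-- The projector onto the even cohomology acts by `1` in even and by `0` in odd degrees. -/
def evenScalars (j : ℕ) : ℚ := if Even j then 1 else 0

/-- The `i`-th Kunneth projector acts by `1` in the degree `i` and by `0` in the other degrees. -/
def kunnethScalars (i j : ℕ) : ℚ := if j = i then 1 else 0

/-- All the Kunneth projectors of `X` are induced by cycles. -/
def HasKunnethCycles {k : Type u} [Field k] {𝒱 : VarClass k} {ops : CycleOps 𝒱}
    (W : WeilCohomology.{u, v} ops) (X : 𝒱.Obj) : Prop :=
  ∀ i, ∃ z, ActsByScalars W X (kunnethScalars i) z

namespace FibreFamily

variable (F : FibreFamily.{u, v})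

/-- The Kunneth projectors of all the varieties `Z t` are induced by cycles of bounded
complexity. -/
def UniformKunneth : Prop := ∀ i, F.Bounded (kunnethScalars i)

/-- The Kunneth projectors of the varieties `Z t` are induced by cycles of bounded complexity, for
`t` in Zariski dense sets of closed points. -/
def UniformKunnethOnDense : Prop := ∀ i, F.BoundedOnDense (kunnethScalars i)

/-- For a Zariski dense set of closed points `t` some cycles on `Z t × Z t` of bounded complexity
act on each `H^i(Z t)` as multiplication by a rational number `f i` (independent of `t`), with
different numbers in the degrees `d` and `d - 1`. -/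
def UniformSeparation (d : ℕ) : Prop :=
  ∃ f : ℕ → ℚ, (∀ i, i + 1 = d → f i ≠ f (i + 1)) ∧ F.BoundedOnDense f

end FibreFamily

end Pool.Agent.N209.GS
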