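import Pool.Agent.N209.GS.One
import Pool.Agent.N209.GS.Model

/-!
# The conjecture B and cycles of bounded degree
-/

set_option autoImplicit false

open CategoryTheory AlgebraicGeometry Filter Topology

universe u v

namespace Pool.Agent.N209.GS

open Pool.Agent.H914 Pool.Agent.H447 Pool.Agent.TH720.LB VarClass Obj WeilCohomology

section Scal

variable {k : Type u} [Field k] {𝒱 : VarClass k} {ops : CycleOps 𝒱}
  {W : WeilCohomology.{u, v} ops} {Z : 𝒱.Obj}

lemma signStd_iff : SignStd W Z ↔ ∃ z, ActsByScalars W Z evenScalars z := by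
  constructor
  · rintro ⟨P, hP, hP'⟩
    refine ⟨P, .of hP fun j x hx => ?_⟩
    rw [hP' j x hx, evenScalars]
    by_cases hj : Even j
    · simp [hj]
    · simp [hj]
  · rintro ⟨P, hP⟩
    refine ⟨P, hP.1, fun j x hx => ?_⟩
    rw [hP.app j x hx, evenScalars]
    by_cases hj : Even j
    · simp [hj]
    · simp [hj]

lemma kunnethStd_iff : KunnethStd W Z ↔ ∀ i, ∃ z, ActsByScalars W Z (kunnethScalars i) z := by
  constructor
  · intro h i
    obtain ⟨P, hP, hP'⟩ := h i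
    refine ⟨P, .of hP fun j x hx => ?_⟩
    rw [hP' j x hx, kunnethScalars]
    by_cases hj : j = i
    · simp [hj]
    · simp [hj]
  · intro h i
    obtain ⟨P, hP⟩ := h i
    refine ⟨P, hP.1, fun j x hx => ?_⟩
    rw [hP.app j x hx, kunnethScalars]
    by_cases hj : j = i
    · simp [hj]
    · simp [hj]

end Scal

lemma FibreFamily.Bounded.onDense {F : FibreFamily.{u, v}} {f : ℕ → ℚ} (h : F.Bounded f) :
    F.BoundedOnDense f := by
  obtain ⟨N, hN⟩ := h
  refine ⟨N, ?_⟩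
  have h1 : {t | F.Has N f t} = Set.univ := Set.eq_univ_of_forall hN
  rw [h1]
  exact dense_univ

lemma FibreFamily.Has.mono {F : FibreFamily.{u, v}} {f : ℕ → ℚ} {N M : ℕ} (h : N ≤ M) {t : F.T}
    (ht : F.Has N f t) : F.Has M f t := by
  obtain ⟨z, hz, hz'⟩ := ht
  exact ⟨z, hz.trans h, hz'⟩

/-- Diagonal argument. -/
lemma exists_slow (a : ℕ → ℕ → ℝ) (ha : ∀ N, Tendsto (a N) atTop (𝓝 0)) :
    ∃ ψ : ℕ → ℕ, Tendsto ψ atTop atTop ∧ Tendsto (fun r => a (ψ r) r) atTop (𝓝 0) := by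
  have h1 : ∀ N, ∃ R, ∀ r ≥ R, |a N r| ≤ 1 / ((N : ℝ) + 1) := by
    intro N
    have h2 : (0 : ℝ) < 1 / ((N : ℝ) + 1) := by positivity
    obtain ⟨R, hR⟩ := (Metric.tendsto_atTop.1 (ha N)) _ h2
    refine ⟨R, fun r hr => ?_⟩
    have h3 := hR r hr
    rw [Real.dist_eq, sub_zero] at h3
    exact h3.le
  choose R hR using h1
  set R' : ℕ → ℕ := fun N => N + R N with hR'
  set ψ : ℕ → ℕ := fun r => Nat.findGreatest (fun N => R' N ≤ r) r with hψ
  have hψt : Tendsto ψ atTop atTop := by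
    refine tendsto_atTop.2 fun M => ?_
    filter_upwards [eventually_ge_atTop (R' M)] with r hr
    exact Nat.le_findGreatest (by simp only [hR'] at hr; omega) hr
  refine ⟨ψ, hψt, ?_⟩
  have h2 : Tendsto (fun r => 1 / (((ψ r : ℕ) : ℝ) + 1)) atTop (𝓝 0) :=
    tendsto_one_div_add_atTop_nhds_zero_nat.comp hψt
  refine squeeze_zero_norm' ?_ h2
  filter_upwards [eventually_ge_atTop (R' 0)] with r hr
  rw [Real.norm_eq_abs]
  apply hR
  have h3 : R' (ψ r) ≤ r := Nat.findGreatest_spec (P := fun N => R' N ≤ r) (Nat.zero_le _) hr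
  simp only [hR'] at h3
  omega

lemma FibreFamily.Bounded.often {F : FibreFamily.{u, v}} {f : ℕ → ℚ} (h : F.Bounded f)
    (hne : ∀ᶠ r in atTop, (F.pts r).Nonempty) : F.OftenSmall f := by
  obtain ⟨N, hN⟩ := h
  intro ψ hψ h0
  have h1 : Tendsto (fun r => F.proportion f (ψ r) r) atTop (𝓝 1) := by
    refine tendsto_const_nhds.congr' ?_
    filter_upwards [hne, hψ.eventually_ge_atTop N] with r hr hr'
    have h2 : {t | t ∈ F.pts r ∧ F.Has (ψ r) f t} = (F.pts r : Set F.T) := by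
      ext t
      exact ⟨fun h => h.1, fun h => ⟨h, (hN t).mono hr'⟩⟩
    rw [FibreFamily.proportion, h2, Set.ncard_coe_finset, div_self]
    exact_mod_cast hr.card_pos.ne'
  exact zero_ne_one (tendsto_nhds_unique h0 h1)

variable {k : Type u} [Field k] {𝒱 : VarClass k} {ops : CycleOps 𝒱}
  {W : WeilCohomology.{u, v} ops} {X P : 𝒱.Obj} {D : X.Cycles} {h : P.Cycles}

/-- **The equivalences.** -/
theorem uniform_tfae {k₁ : Type u} [Field k₁] {𝒱₁ : VarClass k₁} {ops₁ : CycleOps 𝒱₁}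
    {W₁ : WeilCohomology.{u, v} ops₁} {k₂ : Type u} [Field k₂] {𝒱₂ : VarClass k₂}
    {ops₂ : CycleOps 𝒱₂} {W₂ : WeilCohomology.{u, v} ops₂}
    (hD : X.IsCyc 1 D) (hX : HardLefschetz W X D) (hn : 1 ≤ X.dim) (hP : IsProjectiveLine W P h)
    (S₁ : GenericSection W W₁ (X.prod X) (sumDiv ops D D))
    (S₂ : GenericSection W W₂ (((X.prod P).prod P).prod ((X.prod P).prod P))
      (sumDiv ops (sumDiv ops (sumDiv ops D h) h) (sumDiv ops (sumDiv ops D h) h)))
    {F₁ F₂ : FibreFamily.{u, v}} (hF₁ : F₁.HasGenericFibre W₁ S₁.Z)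
    (hF₂ : F₂.HasGenericFibre W₂ S₂.Z) :
    List.TFAE [LefschetzB W X D,
      F₂.Bounded evenScalars,
      F₂.BoundedOnDense evenScalars,
      F₂.OftenSmall evenScalars,
      F₁.UniformKunneth,
      F₁.UniformKunnethOnDense,
      HasKunnethCycles W X ∧ F₁.UniformSeparation S₁.Z.dim] := by
  have ht := one_tfae hD hX hn hP.toLine S₁ S₂
  have h12 : LefschetzB W X D ↔ SignStd W₂ S₂.Z := ht.out 0 1
  have h13 : LefschetzB W X D ↔ KunnethStd W₁ S₁.Z := ht.out 0 2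
  have h14 : LefschetzB W X D ↔ KunnethStd W X ∧ Separates W₁ S₁.Z := ht.out 0 3
  rw [kunnethStd_iff] at h14
  tfae_have 1 → 2 := by
    intro hB
    obtain ⟨z, hz⟩ := signStd_iff.1 (h12.1 hB)
    exact hF₂.specialize _ z hz
  tfae_have 2 → 3 := fun h2 => h2.onDense
  tfae_have 3 → 1 := fun h2 => h12.2 (signStd_iff.2 (hF₂.spread _ h2))
  tfae_have 2 → 4 := fun h2 => h2.often hF₂.nonempty
  tfae_have 4 → 1 := by
    intro h2
    by_contra hB
    obtain ⟨ψ, hψ, h0⟩ := exists_slow _ (hF₂.rare evenScalars fun z hz =>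
      hB (h12.2 (signStd_iff.2 ⟨z, hz⟩)))
    exact h2 ψ hψ h0
  tfae_have 1 → 5 := by
    intro hB i
    obtain ⟨z, hz⟩ := kunnethStd_iff.1 (h13.1 hB) i
    exact hF₁.specialize _ z hz
  tfae_have 5 → 6 := fun h2 i => (h2 i).onDense
  tfae_have 6 → 1 := fun h2 => h13.2 (kunnethStd_iff.2 fun i => hF₁.spread _ (h2 i))
  tfae_have 1 → 7 := by
    intro hB
    obtain ⟨hK, f, z, hz, hf⟩ := h14.1 hB
    exact ⟨hK, f, hf, (hF₁.specialize f z hz).onDense⟩
  tfae_have 7 → 1 := by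
    rintro ⟨hK, f, hf, hd⟩
    obtain ⟨z, hz⟩ := hF₁.spread f hd
    exact h14.2 ⟨hK, f, z, hz, hf⟩
  tfae_finish

end Pool.Agent.N209.GS
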