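import Pool.Agent.N209.GS.Def

/-!
# Generic hyperplane sections: the properties
-/

set_option autoImplicit false

open CategoryTheory AlgebraicGeometry

universe u v

namespace Pool.Agent.N209.GS

open Pool.Agent.H914 Pool.Agent.H447 VarClass Obj WeilCohomology

lemma ActsByScalars.app {k : Type u} [Field k] {𝒱 : VarClass k} {ops : CycleOps 𝒱}
    {W : WeilCohomology.{u, v} ops} {Z : 𝒱.Obj} {f : ℕ → ℚ} {z : (Z.prod Z).Cycles}
    (h : ActsByScalars W Z f z) (i : ℕ) (x : W.H Z) (hx : x ∈ W.gr Z i) :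
    W.corr (W.cl (Z.prod Z) z) x = (f i : W.K) • x := h.2 i x hx

lemma ActsByScalars.of {k : Type u} [Field k] {𝒱 : VarClass k} {ops : CycleOps 𝒱}
    {W : WeilCohomology.{u, v} ops} {Z : 𝒱.Obj} {f : ℕ → ℚ} {z : (Z.prod Z).Cycles}
    (h : (Z.prod Z).IsCyc Z.dim z)
    (h' : ∀ i, ∀ x ∈ W.gr Z i, W.corr (W.cl (Z.prod Z) z) x = (f i : W.K) • x) :
    ActsByScalars W Z f z := ⟨h, h'⟩

namespace GenericSection

variable {k : Type u} [Field k] {𝒱 : VarClass k} {ops : CycleOps 𝒱}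
  {k' : Type u} [Field k'] {𝒱' : VarClass k'} {ops' : CycleOps 𝒱'}
  {W : WeilCohomology.{u, v} ops} {W' : WeilCohomology.{u, v} ops'} {V : 𝒱.Obj}
  {E : V.Cycles} (S : GenericSection W W' V E)

/-- the homomorphism of the coefficient fields -/
abbrev σ : W.K →+* W'.K := S.R.σ

/-- the restriction from `V` to `Z` -/
abbrev res : W.H V →+* W'.H S.Z := S.R.res

/-- the restriction from `V × V` to `Z × Z` -/
abbrev res₂ : W.H (V.prod V) →+* W'.H (S.Z.prod S.Z) := S.R.res₂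

lemma res_smul (c : W.K) (a : W.H V) : S.res (c • a) = S.σ c • S.res a := S.semilinear c a

lemma res₂_smul (c : W.K) (a : W.H (V.prod V)) : S.res₂ (c • a) = S.σ c • S.res₂ a :=
  S.semilinear₂ c a

lemma res_mem {i : ℕ} {a : W.H V} (h : a ∈ W.gr V i) : S.res a ∈ W'.gr S.Z i := S.graded i a h

lemma res₂_fst (a : W.H V) : S.res₂ (W.map (fst V V) a) = W'.map (fst S.Z S.Z) (S.res a) :=
  S.compatFst a

lemma res₂_snd (a : W.H V) : S.res₂ (W.map (snd V V) a) = W'.map (snd S.Z S.Z) (S.res a) :=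
  S.compatSnd a

lemma tr_res (a : W.H V) : W'.tr S.Z (S.res a) = S.σ (W.tr V (W.cl V E * a)) := S.hasClass a

lemma inj : ∀ i ≤ S.Z.dim, ∀ a ∈ W.gr V i, S.res a = 0 → a = 0 := S.weakInj

lemma surj : ∀ i < S.Z.dim, ∀ b ∈ W'.gr S.Z i,
    b ∈ Submodule.span W'.K (S.res '' (W.gr V i : Set (W.H V))) := by
  intro i hi b hb
  obtain ⟨n, c, a, ha, rfl⟩ := S.weakSurj i hi b hb
  exact Submodule.sum_mem _ fun j _ => Submodule.smul_mem _ _
    (Submodule.subset_span ⟨a j, ha j, rfl⟩)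

lemma vanishing : ∃ y ∈ W'.gr S.Z S.Z.dim, y ≠ 0 ∧ ∀ a : W.H V, W'.tr S.Z (y * S.res a) = 0 :=
  S.hasVanishing

lemma cycles (f : ℕ → ℚ) (z : (S.Z.prod S.Z).Cycles) (h : ActsByScalars W' S.Z f z) :
    ∃ ζ, (V.prod V).IsCyc S.Z.dim ζ ∧ ∃ c : ℚ,
      W'.cl (S.Z.prod S.Z) z = S.res₂ (W.cl (V.prod V) ζ) + (c : W'.K) • diagClass W' S.Z :=
  S.cyclesFromV f z h

lemma restrict : ∀ ζ, (V.prod V).IsCyc S.Z.dim ζ → ∃ z, (S.Z.prod S.Z).IsCyc S.Z.dim z ∧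
    W'.cl (S.Z.prod S.Z) z = S.res₂ (W.cl (V.prod V) ζ) := S.restrictsCycles

end GenericSection

end Pool.Agent.N209.GS
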