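import Pool.Agent.H914R2.HLam

/-!
# Operators which anticommute with the Lefschetz operator up to a sign operator
-/

set_option autoImplicit false

open Finset

namespace Pool.Agent.N209.GS

open Pool.Agent.H914

variable {K : Type*} [Field K] [CharZero K] {V : Type*} [AddCommGroup V] [Module K V]
  {gr : ℕ → Submodule K V} {n : ℕ} {L : Module.End K V}

/-- Diagonal operators. -/
lemma exists_diag [Module.Finite K V] (h : DirectSum.IsInternal gr) (hL : IsHom gr 2 L)
    (hbd : ∀ i, 2 * n + 1 ≤ i → gr i = ⊥) (hHL : HardLef gr n L) (κ : ℕ → ℕ → K) :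
    ∃ R : Module.End K V, ∀ i ≤ n, ∀ a ∈ gr i, (L ^ (n - i + 1)) a = 0 → ∀ j ≤ n - i,
      R ((L ^ j) a) = κ i j • (L ^ j) a := by
  obtain ⟨Φ, -, hΦ⟩ := exists_isLam h hL hbd hHL
  refine ⟨∑ i ∈ range (n + 1), ∑ j ∈ range (n - i + 1), κ i j • eij h L Φ i j, ?_⟩
  intro i hi a ha hp j hj
  rw [LinearMap.sum_apply, Finset.sum_eq_single i]
  · rw [LinearMap.sum_apply, Finset.sum_eq_single j]
    · rw [LinearMap.smul_apply, eij_apply h hL hΦ hi ha hp hj, if_pos ⟨rfl, rfl⟩]
    · intro j' _ hj'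
      rw [LinearMap.smul_apply, eij_apply h hL hΦ hi ha hp hj, if_neg (by tauto), smul_zero]
    · intro h'; exact absurd (Finset.mem_range.2 (by omega)) h'
  · intro i' _ hi'
    rw [LinearMap.sum_apply]
    apply Finset.sum_eq_zero
    intro j' _
    rw [LinearMap.smul_apply, eij_apply h hL hΦ hi ha hp hj, if_neg (by tauto), smul_zero]
  · intro h'; exact absurd (Finset.mem_range.2 (by omega)) h'

/-- The relations `L p + p L = 1 - q`, `L q + q L = 0` in the degrees of the parity of `n`. -/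
structure Rel (gr : ℕ → Submodule K V) (n : ℕ) (L p q : Module.End K V) : Prop where
  hp : IsHom gr (-2) p
  hq : IsHom gr 0 q
  lp : ∀ j, (j + n) % 2 = 0 → ∀ x ∈ gr j, L (p x) + p (L x) = x - q x
  lq : ∀ j, (j + n) % 2 = 0 → ∀ x ∈ gr j, L (q x) + q (L x) = 0

namespace Rel

variable {p q : Module.End K V} (r : Rel gr n L p q)

include r

omit [CharZero K] in
lemma q_pow (hL : IsHom gr 2 L) {j : ℕ} (hj : (j + n) % 2 = 0) {x : V} (hx : x ∈ gr j) (k : ℕ) :
    q ((L ^ k) x) = (-1 : K) ^ k • (L ^ k) (q x) := by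
  induction k with
  | zero => simp
  | succ k ih =>
    have h1 := r.lq (j + 2 * k) (by omega) _ (pow_L_mem hL hx k)
    rw [ih, map_smul] at h1
    rw [pow_succ' L, Module.End.mul_apply, Module.End.mul_apply, ← neg_eq_of_add_eq_zero_right h1,
      pow_succ, ← neg_smul]
    congr 1
    ring

omit [CharZero K] in
lemma p_pow (hL : IsHom gr 2 L) {j : ℕ} (hj : (j + n) % 2 = 0) {x : V} (hx : x ∈ gr j) (k : ℕ) :
    p ((L ^ (k + 1)) x) = (-1 : K) ^ (k + 1) • (L ^ (k + 1)) (p x) +
      (if Even k then (1 : K) else 0) • (L ^ k) x +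
      ((-1 : K) ^ (k + 1) * ((k : K) + 1)) • (L ^ k) (q x) := by
  induction k with
  | zero =>
    have h1 := r.lp j hj x hx
    rw [zero_add, pow_one, pow_one, pow_zero, if_pos (by decide), one_smul, Nat.cast_zero, zero_add,
      mul_one, neg_one_smul, neg_one_smul, Module.End.one_apply, Module.End.one_apply]
    have h2 : p (L x) = x - q x - L (p x) := by
      rw [← h1]; abel
    rw [h2]
    abel
  | succ k ih =>
    have h1 := r.lp (j + 2 * (k + 1)) (by omega) _ (pow_L_mem hL hx (k + 1))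
    have h2 : p (L ((L ^ (k + 1)) x)) = (L ^ (k + 1)) x - q ((L ^ (k + 1)) x) -
        L (p ((L ^ (k + 1)) x)) := by
      rw [← h1]; abel
    have e1 : (L ^ (k + 1 + 1)) x = L ((L ^ (k + 1)) x) := by
      rw [pow_succ' L (k + 1), Module.End.mul_apply]
    have e2 : (L ^ (k + 1 + 1)) (p x) = L ((L ^ (k + 1)) (p x)) := by
      rw [pow_succ' L (k + 1), Module.End.mul_apply]
    have e3 : L ((L ^ k) x) = (L ^ (k + 1)) x := by
      rw [pow_succ' L k, Module.End.mul_apply]
    have e4 : L ((L ^ k) (q x)) = (L ^ (k + 1)) (q x) := by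
      rw [pow_succ' L k, Module.End.mul_apply]
    rw [e1, h2, ih, r.q_pow hL hj hx, map_add, map_add, map_smul, map_smul, map_smul, e2, e3, e4]
    have e5 : (if Even (k + 1) then (1 : K) else 0) = 1 - (if Even k then (1 : K) else 0) := by
      by_cases h3 : Even k
      · rw [if_pos h3, if_neg (by rw [Nat.even_add_one]; exact not_not.2 h3), sub_self]
      · rw [if_neg h3, if_pos (by rw [Nat.even_add_one]; exact h3), sub_zero]
    rw [e5]
    push_cast
    module

variable (hL : IsHom gr 2 L) (hHL : HardLef gr n L) {i : ℕ} (hi : i ≤ n) (hin : (i + n) % 2 = 0)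
  {a : V} (ha : a ∈ gr i) (hprim : (L ^ (n - i + 1)) a = 0)

include hL hHL hi hin ha hprim

omit [CharZero K] in
lemma p_prim : p a = 0 := by
  have h1 : (L ^ (n - i + 1)) (q a) = 0 := by
    have h2 := r.q_pow hL hin ha (n - i + 1)
    rw [hprim, map_zero] at h2
    rcases smul_eq_zero.1 h2.symm with h3 | h3
    · exact absurd h3 (pow_ne_zero _ (neg_ne_zero.2 one_ne_zero))
    · exact h3
  have h2 := r.p_pow hL hin ha (n - i + 1)
  have h3 : ¬ Even (n - i + 1) := by
    rw [Nat.even_iff]; omega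
  have h4 : (L ^ (n - i + 1 + 1)) a = 0 := by
    rw [pow_succ', Module.End.mul_apply, hprim, map_zero]
  rw [h4, map_zero, if_neg h3, zero_smul, add_zero, h1, smul_zero, add_zero] at h2
  have h5 : (L ^ (n - i + 1 + 1)) (p a) = 0 := by
    rcases smul_eq_zero.1 h2.symm with h6 | h6
    · exact absurd h6 (pow_ne_zero _ (neg_ne_zero.2 one_ne_zero))
    · exact h6
  have h6 := r.hp i a (by rw [grZ_natCast]; exact ha)
  by_cases h7 : 2 ≤ i
  · rw [show (i : ℤ) + -2 = ((i - 2 : ℕ) : ℤ) by omega, grZ_natCast] at h6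
    exact (hHL (i - 2) (by omega)).1 _ h6 (by
      rwa [show n - (i - 2) = n - i + 1 + 1 by omega])
  · rw [grZ_of_neg (by omega)] at h6
    exact (Submodule.mem_bot _).1 h6

lemma q_prim : q a = (((n - i : ℕ) : K) + 1)⁻¹ • a := by
  have h2 := r.p_pow hL hin ha (n - i)
  have h3 : Even (n - i) := by
    rw [Nat.even_iff]; omega
  rw [hprim, map_zero, r.p_prim hL hHL hi hin ha hprim, map_zero, smul_zero, zero_add, if_pos h3,
    one_smul, pow_succ, h3.neg_one_pow, one_mul, neg_one_mul, neg_smul] at h2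
  have h4 : (L ^ (n - i)) (a - (((n - i : ℕ) : K) + 1) • q a) = 0 := by
    rw [map_sub, map_smul, sub_eq_add_neg]
    exact h2.symm
  have h5 : q a ∈ gr i := by
    have h6 := r.hq i a (by rw [grZ_natCast]; exact ha)
    rwa [add_zero, grZ_natCast] at h6
  have h6 := (hHL i hi).1 _ (Submodule.sub_mem _ ha (Submodule.smul_mem _ _ h5)) h4
  have h7 : (((n - i : ℕ) : K) + 1) ≠ 0 := by exact_mod_cast Nat.succ_ne_zero (n - i)
  rw [sub_eq_zero] at h6
  calc q a = (((n - i : ℕ) : K) + 1)⁻¹ • ((((n - i : ℕ) : K) + 1) • q a) := by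
        rw [smul_smul, inv_mul_cancel₀ h7, one_smul]
    _ = (((n - i : ℕ) : K) + 1)⁻¹ • a := by rw [← h6]

omit r hL hHL hi hin ha hprim in
/-- the eigenvalues -/
noncomputable def cc (K : Type*) [Field K] (m k : ℕ) : K :=
  (if Even k then (1 : K) else 0) + (-1 : K) ^ (k + 1) * ((k : K) + 1) * ((m : K) + 1)⁻¹

omit r hL hHL hi hin ha hprim in
lemma cc_ne {m k : ℕ} (hk : k + 1 ≤ m) : cc K m k ≠ 0 := by
  have h7 : ((m : K) + 1) ≠ 0 := by exact_mod_cast Nat.succ_ne_zero m
  rw [cc]
  by_cases h1 : Even k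
  · rw [if_pos h1, pow_succ, h1.neg_one_pow, one_mul, neg_one_mul, neg_mul, ← sub_eq_add_neg,
      sub_ne_zero]
    intro h2
    have h3 : (m : K) + 1 = (k : K) + 1 := by
      field_simp at h2
      exact h2
    have h4 : m = k := by
      have h5 : ((m + 1 : ℕ) : K) = ((k + 1 : ℕ) : K) := by push_cast; exact h3
      have h6 := Nat.cast_injective h5
      omega
    omega
  · rw [if_neg h1, zero_add]
    refine mul_ne_zero (mul_ne_zero (pow_ne_zero _ (neg_ne_zero.2 one_ne_zero)) ?_) (inv_ne_zero h7)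
    exact_mod_cast Nat.succ_ne_zero k

lemma p_block (k : ℕ) : p ((L ^ (k + 1)) a) = cc K (n - i) k • (L ^ k) a := by
  rw [r.p_pow hL hin ha k, r.p_prim hL hHL hi hin ha hprim, map_zero, smul_zero, zero_add,
    r.q_prim hL hHL hi hin ha hprim, map_smul, smul_smul, ← add_smul, cc]

lemma p_block_pow (c j : ℕ) : (p ^ c) ((L ^ (j + c)) a) =
    (∏ t ∈ range c, cc K (n - i) (j + t)) • (L ^ j) a := by
  induction c with
  | zero => simp
  | succ c ih =>
    rw [pow_succ, Module.End.mul_apply, ← add_assoc, r.p_block hL hHL hi hin ha hprim, map_smul,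
      ih, smul_smul, Finset.prod_range_succ, mul_comm]

omit hi hin ha hprim in
/-- **The powers of `p` are injective.** -/
theorem pow_inj [Module.Finite K V] (h : DirectSum.IsInternal gr)
    (hbd : ∀ i, 2 * n + 1 ≤ i → gr i = ⊥) {c : ℕ} (hc : c ≤ n) (hce : Even c) {x : V}
    (hx : x ∈ gr (n + c)) (h0 : (p ^ c) x = 0) : x = 0 := by
  obtain ⟨y, hy, rfl⟩ := (hHL (n - c) (by omega)).2 x
    (by rwa [show 2 * n - (n - c) = n + c by omega])
  rw [show n - (n - c) = c by omega] at h0 ⊢
  obtain ⟨R, hR⟩ := exists_diag h hL hbd hHL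
    (fun i j => (∏ t ∈ range c, cc K (n - i) (j + t))⁻¹)
  have key : ∀ z : V, R ((p ^ c) ((L ^ c) (proj h (n - c) z))) = proj h (n - c) z := by
    intro z
    refine lef_induction' h hL hbd hHL
      (p := fun z => R ((p ^ c) ((L ^ c) (proj h (n - c) z))) = proj h (n - c) z) ?_ ?_ z
    · intro z z' h1 h2
      rw [map_add, map_add, map_add, map_add, h1, h2]
    · intro i hi a ha hp j
      have hm := pow_L_mem hL ha j
      by_cases hij : i + 2 * j = n - c
      · rw [hij] at hm
        have h2 : (i + n) % 2 = 0 := by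
          have := Nat.even_iff.1 hce
          omega
        rw [proj_same _ hm, ← Module.End.mul_apply (L ^ c), ← pow_add, add_comm c j,
          r.p_block_pow hL hHL hi h2 ha hp, map_smul, hR i hi a ha hp j (by omega), smul_smul,
          mul_inv_cancel₀, one_smul]
        refine Finset.prod_ne_zero_iff.2 fun t ht => cc_ne ?_
        have := Finset.mem_range.1 ht
        omega
      · rw [proj_ne _ hm hij, map_zero, map_zero, map_zero]
  have h1 := key y
  rw [proj_same _ hy, h0, map_zero] at h1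
  rw [← h1, map_zero]

end Rel

end Pool.Agent.N209.GS
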