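import Pool.Agent.N209.GS.Sl

/-!
# The conjecture C for generic hyperplane sections from the conjecture B
-/

set_option autoImplicit false

open CategoryTheory AlgebraicGeometry Finset

universe u v

namespace Pool.Agent.N209.GS

open Pool.Agent.H914 Pool.Agent.H447 Pool.Agent.TH720.LB VarClass Obj WeilCohomology

variable {k : Type u} [Field k] {𝒱 : VarClass k} {ops : CycleOps 𝒱}
  {W : WeilCohomology.{u, v} ops} {X : 𝒱.Obj} {D : X.Cycles}

lemma kunneth_of_rop (h : ∀ i ≤ 2 * X.dim, ROp W X 0 (proj (W.isInternal X) i)) :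
    KunnethStd W X := by
  intro i
  by_cases hi : i ≤ 2 * X.dim
  · obtain ⟨z, hz, hz'⟩ := cyc_of_rop (h i hi)
    refine ⟨z, hz, fun j a ha => ?_⟩
    rw [hz']
    split_ifs with hij
    · subst hij; exact proj_same _ ha
    · exact proj_ne _ ha hij
  · refine ⟨0, SmVar.IsCyc.zero _ _, fun j a ha => ?_⟩
    rw [map_zero, corr_zero, LinearMap.zero_apply]
    split_ifs with hij
    · subst hij
      rw [W.gr_eq_bot X j (by omega)] at ha
      exact ((Submodule.mem_bot _).1 ha).symm
    · rfl

lemma tr_proj {i : ℕ} (hi : i ≤ 2 * X.dim) (b a : W.H X) :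
    W.tr X (proj (W.isInternal X) i b * a) =
      W.tr X (b * proj (W.isInternal X) (2 * X.dim - i) a) := by
  refine gr_induction (W.isInternal X) (p := fun b => W.tr X (proj (W.isInternal X) i b * a) =
      W.tr X (b * proj (W.isInternal X) (2 * X.dim - i) a)) ?_ ?_ b
  · intro l b hb
    refine gr_induction (W.isInternal X) (p := fun a => W.tr X (proj (W.isInternal X) i b * a) =
      W.tr X (b * proj (W.isInternal X) (2 * X.dim - i) a)) ?_ ?_ a
    · intro j a ha
      by_cases hl : l = i
      · subst hl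
        rw [proj_same _ hb]
        by_cases hj : j = 2 * X.dim - l
        · subst hj
          rw [proj_same _ ha]
        · rw [proj_ne _ ha hj, mul_zero, map_zero, W.tr_eq_zero (W.mul_mem hb ha) (by omega)]
      · rw [proj_ne _ hb hl, zero_mul, map_zero]
        by_cases hj : j = 2 * X.dim - i
        · subst hj
          rw [proj_same _ ha, W.tr_eq_zero (W.mul_mem hb ha) (by omega)]
        · rw [proj_ne _ ha hj, mul_zero, map_zero]
    · intro a a' h1 h2
      rw [mul_add, map_add, map_add, mul_add, map_add, h1, h2]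
  · intro b b' h1 h2
    rw [map_add, add_mul, map_add, add_mul, map_add, h1, h2]

lemma rop_proj_dual {i : ℕ} (hi : i ≤ 2 * X.dim) (h : ROp W X 0 (proj (W.isInternal X) i)) :
    ROp W X 0 (proj (W.isInternal X) (2 * X.dim - i)) := by
  obtain ⟨z, hz, hz'⟩ := cyc_of_rop h
  have h1 : proj (W.isInternal X) (2 * X.dim - i) = W.corr (W.cl _ (ops.pull (swap X X) z)) := by
    apply LinearMap.ext
    intro a
    rw [← sub_eq_zero]
    apply nondeg_right (W := W)
    intro b
    rw [mul_sub, map_sub, W.cl_pull, ← tr_corr_swap (W.cl_mem hz), hz', tr_proj hi, sub_self]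
  rw [h1]
  exact rop_of_cyc (ops.pull_mem _ hz)

/-- The Kunneth projectors below the middle suffice. -/
theorem kunneth_of_low (h : ∀ i < X.dim, ROp W X 0 (proj (W.isInternal X) i)) :
    KunnethStd W X := by
  have h2 : ∀ i ≤ 2 * X.dim, i ≠ X.dim → ROp W X 0 (proj (W.isInternal X) i) := by
    intro i hi hne
    by_cases h1 : i < X.dim
    · exact h i h1
    · have h3 := rop_proj_dual (W := W) (i := 2 * X.dim - i) (by omega) (h _ (by omega))
      rwa [show 2 * X.dim - (2 * X.dim - i) = i by omega] at h3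
  apply kunneth_of_rop
  intro i hi
  by_cases hne : i = X.dim
  · subst hne
    have h3 := sum_proj (W.isInternal X) (N := 2 * X.dim + 1) W_hbd
    rw [← Finset.add_sum_erase _ _ (Finset.mem_range.2 (show X.dim < 2 * X.dim + 1 by omega))] at h3
    rw [eq_sub_of_add_eq h3]
    refine rop_opAlg.sub rop_opAlg.one (rop_sum fun j hj => ?_)
    rw [Finset.mem_erase, Finset.mem_range] at hj
    exact h2 j (by omega) hj.1
  · exact h2 i hi hne

/-- The conjecture B implies the conjecture C. -/
lemma kunneth_of_B (hD : X.IsCyc 1 D) (hX : HardLefschetz W X D) (hB : LefschetzB W X D) :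
    KunnethStd W X := by
  obtain ⟨Φ, hΦ, hLam⟩ := lefschetzB_iff_rop.1 hB
  exact kunneth_of_rop fun i _ =>
    rop_opAlg.proj_mem (W.isInternal X) W_hbd (rop_mulLeft hD) hX hΦ hLam i

lemma sign_of_kunneth (h : KunnethStd W X) : SignStd W X := by
  have h1 : ROp W X 0 (scal (W.isInternal X) (fun j => (((if Even j then 1 else 0 : ℚ)) : W.K))) :=
    rop_scal h (fun j => if Even j then 1 else 0)
  obtain ⟨z, hz, hz'⟩ := cyc_of_rop h1
  refine ⟨z, hz, fun j a ha => ?_⟩
  rw [hz', scal_apply _ _ ha]
  split_ifs <;> simp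

section Section

variable {k' : Type u} [Field k'] {𝒱' : VarClass k'} {ops' : CycleOps 𝒱'}
  {W' : WeilCohomology.{u, v} ops'} {V : 𝒱.Obj} {E : V.Cycles}

/-- The image of the restriction of a correspondence consists of combinations of restrictions. -/
lemma GenericSection.corr_mem (S : GenericSection W W' V E) (x : W.H (V.prod V)) (b : W'.H S.Z) :
    W'.corr (S.res₂ x) b ∈ Submodule.span W'.K (Set.range S.res) := by
  refine W.kunneth_induction (p := fun x => W'.corr (S.res₂ x) b ∈
    Submodule.span W'.K (Set.range S.res)) ?_ ?_ x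
  · intro x y hx hy
    rw [map_add, corr_add, LinearMap.add_apply]
    exact Submodule.add_mem _ hx hy
  · intro i j a ha c hc
    refine gr_induction (W'.isInternal S.Z) (p := fun b =>
      W'.corr (S.res₂ (W.map (fst V V) a * W.map (snd V V) c)) b ∈
        Submodule.span W'.K (Set.range S.res)) ?_ ?_ b
    · intro l b hb
      rw [corr_apply, map_mul S.res₂, S.res₂_fst, S.res₂_snd, mul_assoc,
        W'.comm (W'.map_mem (snd _ _) (S.res_mem hc)) (W'.map_mem (fst _ _) hb), mul_smul_comm,
        ← mul_assoc, ← map_mul (W'.map (fst _ _)), map_smul, push_snd]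
      exact Submodule.smul_mem _ _ (Submodule.smul_mem _ _ (Submodule.subset_span ⟨c, rfl⟩))
    · intro b b' h1 h2
      rw [map_add]
      exact Submodule.add_mem _ h1 h2

/-- If the conjecture B holds for `V`, then the Kunneth projectors of the section are
algebraic. -/
theorem kunneth_section (S : GenericSection W W' V E) (hE : V.IsCyc 1 E)
    (hV : HardLefschetz W V E) (hB : LefschetzB W V E) : KunnethStd W' S.Z := by
  obtain ⟨Φ, hΦ, hLam⟩ := lefschetzB_iff_rop.1 hB
  have hdim := S.dim_eq
  apply kunneth_of_low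
  intro i hi
  obtain ⟨c, hc⟩ : ∃ c, V.dim = i + (c + 1) := ⟨V.dim - i - 1, by omega⟩
  set L := LinearMap.mulLeft W.K (W.cl V E) with hL
  have hLh : IsHom (W.gr V) 2 L := isHom_mulLeft W hE
  set T : Module.End W.K (W.H V) := Φ ^ (c + 1) * L ^ c * proj (W.isInternal V) (i + 2) with hT
  have hTR : ROp W V (-1) T := by
    have h1 : ROp W V (((c + 1 : ℕ) : ℤ) * (-1)) (Φ ^ (c + 1)) := rop_opAlg.pow hΦ (c + 1)
    have h2 : ROp W V ((c : ℤ) * 1) (L ^ c) := rop_opAlg.pow (rop_mulLeft hE) c
    have h3 : ROp W V 0 (proj (W.isInternal V) (i + 2)) :=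
      rop_opAlg.proj_mem (W.isInternal V) W_hbd (rop_mulLeft hE) hV hΦ hLam _
    refine rop_opAlg.cast (rop_opAlg.mul (rop_opAlg.mul h1 h2) h3) ?_
    push_cast; ring
  have hTa : ∀ j, ∀ a ∈ W.gr V j, T (W.cl V E * a) = if j = i then a else 0 := by
    intro j a ha
    have h1 : W.cl V E * a ∈ W.gr V (j + 2) := by
      have := W.mul_mem (W.cl_mem hE) ha
      rwa [show 2 * 1 + j = j + 2 by ring] at this
    rw [hT, Module.End.mul_apply, Module.End.mul_apply]
    split_ifs with hij
    · subst hij
      rw [proj_same _ h1]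
      have h2 : (L ^ c) (W.cl V E * a) = (L ^ (c + 1)) a := by
        rw [pow_succ, Module.End.mul_apply]
        rfl
      rw [h2]
      exact lam_pow_L_pow hLh W_hbd hV hLam (by omega)
        (by rwa [show V.dim - (c + 1) = j by omega])
    · rw [proj_ne _ h1 (by omega), map_zero, map_zero]
  obtain ⟨Y, ⟨q, hq, ζ, hζ, hY⟩ | ⟨hd, -⟩, hYT⟩ := hTR
  swap
  · omega
  have hqd : q = S.Z.dim := by omega
  subst hqd
  have hx : W.corr (W.cl _ ζ) = T := by rw [← hYT, hY]
  obtain ⟨z, hz, hz'⟩ := S.restrict ζ hζ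
  set A := W'.corr (W'.cl _ z) with hA
  have hAr : ∀ a : W.H V, A (S.res a) = S.res (T (W.cl V E * a)) := by
    intro a
    rw [hA, hz', S.corr_res hE, hx]
  have h1 : ∀ b, A b ∈ Submodule.span W'.K (Set.range S.res) := by
    intro b
    rw [hA, hz']
    exact S.corr_mem _ b
  have h2 : ∀ r ∈ Submodule.span W'.K (Set.range S.res), A r ∈ W'.gr S.Z i := by
    intro r hr
    induction hr using Submodule.span_induction with
    | mem x hx' =>
      obtain ⟨a, rfl⟩ := hx'
      refine gr_induction (W.isInternal V) (p := fun a => A (S.res a) ∈ W'.gr S.Z i) ?_ ?_ a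
      · intro j a ha
        rw [hAr, hTa j a ha]
        split_ifs with hij
        · subst hij; exact S.res_mem ha
        · rw [map_zero]; exact Submodule.zero_mem _
      · intro a a' h3 h4
        rw [map_add, map_add]
        exact Submodule.add_mem _ h3 h4
    | zero => rw [map_zero]; exact Submodule.zero_mem _
    | add x y _ _ hx' hy' => rw [map_add]; exact Submodule.add_mem _ hx' hy'
    | smul c x _ hx' => rw [map_smul]; exact Submodule.smul_mem _ _ hx'
  have h3 : ∀ b ∈ W'.gr S.Z i, A b = b := by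
    intro b hb
    have hb' := S.surj i hi b hb
    clear hb
    induction hb' using Submodule.span_induction with
    | mem x hx' =>
      obtain ⟨a, ha, rfl⟩ := hx'
      rw [hAr, hTa i a ha, if_pos rfl]
    | zero => rw [map_zero]
    | add x y _ _ hx' hy' => rw [map_add, hx', hy']
    | smul c x _ hx' => rw [map_smul, hx']
  have hAhom : IsHom (W'.gr S.Z) 0 A := by
    have := W'.corr_isHom (W'.cl_mem hz)
    rwa [sub_self, mul_zero] at this
  have hAA : A * A = proj (W'.isInternal S.Z) i := by
    apply gr_ext (W'.isInternal S.Z)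
    intro j b hb
    rw [Module.End.mul_apply]
    by_cases hij : j = i
    · subst hij
      rw [h3 b hb, h3 b hb, proj_same _ hb]
    · rw [proj_ne _ hb hij]
      have h4 : A (A b) ∈ W'.gr S.Z i := h2 _ (h1 b)
      have h5 : A (A b) ∈ W'.gr S.Z j := by
        have h6 := (hAhom.mul hAhom) j b (by rw [grZ_natCast]; exact hb)
        rw [add_zero, add_zero, grZ_natCast] at h6
        exact h6
      have h7 := proj_same (W'.isInternal S.Z) h4
      rw [proj_ne _ h5 hij] at h7
      exact h7.symm
  rw [← hAA]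
  exact rop_mul0 (rop_of_cyc hz) (rop_of_cyc hz)

/-- **B for `X` in terms of the Kunneth projectors of `X` and of the generic hyperplane section of
`X × X`.** -/
theorem tfae (hD : X.IsCyc 1 D) (hX : HardLefschetz W X D) (hn : 1 ≤ X.dim)
    (S : GenericSection W W' (X.prod X) (sumDiv ops D D)) :
    List.TFAE [LefschetzB W X D, KunnethStd W X ∧ KunnethStd W' S.Z,
      KunnethStd W X ∧ SignStd W' S.Z, KunnethStd W X ∧ Separates W' S.Z] := by
  tfae_have 1 → 2 := by
    intro hB
    exact ⟨kunneth_of_B hD hX hB, kunneth_section S (isCyc_sumDiv hD hD)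
      (TH125.Gal.hardLefschetz_prod hD hD hX hX) (X310.Mom.lefschetzB_prod hD hD hX hX hB hB)⟩
  tfae_have 2 → 3 := fun h => ⟨h.1, sign_of_kunneth h.2⟩
  tfae_have 3 → 4 := fun h => ⟨h.1, separates_of_sign h.2⟩
  tfae_have 4 → 1 := fun h => lefschetzB_of_separates hD hX hn S h.1 h.2
  tfae_finish

end Section

end Pool.Agent.N209.GS
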