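import Pool.Agent.H447R3.SpDefs
import Pool.Agent.H914R2.HodgeDefs
import Pool.Agent.H914R2.KDefs2
import Pool.Agent.TH720.LB.Defs

/-!
# Generic hyperplane sections: definitions
-/

set_option autoImplicit false

open CategoryTheory AlgebraicGeometry

universe u v

namespace Pool.Agent.N209.GS

open Pool.Agent.H914 Pool.Agent.H447 VarClass Obj WeilCohomology

section Basic

variable {k : Type u} [Field k] {𝒱 : VarClass k} {ops : CycleOps 𝒱}
  (W : WeilCohomology.{u, v} ops) (Z : 𝒱.Obj)

/-- The class of the diagonal of `Z`. -/
noncomputable def diagClass : W.H (Z.prod Z) :=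
  W.cl (Z.prod Z) (ops.push (diag Z) Z.V.fundCycle)

/-- The class of the cycle `z` on `Z`. -/
noncomputable def classOf (z : Z.Cycles) : W.H Z := W.cl Z z

/-- The cycle `z` on `Z × Z` acting on `H(Z)` as a correspondence. -/
noncomputable def act (z : (Z.prod Z).Cycles) (x : W.H Z) : W.H Z :=
  W.corr (classOf W (Z.prod Z) z) x

/-- `x` is a class of degree `i`. -/
def InDegree (i : ℕ) (x : W.H Z) : Prop := x ∈ W.gr Z i

/-- Multiplication of classes by scalars. -/
noncomputable def scale (c : W.K) (x : W.H Z) : W.H Z := c • x

/-- The trace of the class `x` (the degree, on the top cohomology). -/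
noncomputable def trace (x : W.H Z) : W.K := W.tr Z x

/-- The cup product pairing `tr (x y)`. -/
noncomputable def pairing (x y : W.H Z) : W.K := trace W Z (x * y)

/-- The pull-back to `Z × Z` along the first projection. -/
noncomputable def pullFst (x : W.H Z) : W.H (Z.prod Z) := W.map (fst Z Z) x

/-- The pull-back to `Z × Z` along the second projection. -/
noncomputable def pullSnd (x : W.H Z) : W.H (Z.prod Z) := W.map (snd Z Z) x

/-- The cycle `z` on `Z × Z` (of codimension `dim Z`) acts on `H^i(Z)` as multiplication by the
rational number `f i`, for all `i`. -/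
def ActsByScalars (f : ℕ → ℚ) (z : (Z.prod Z).Cycles) : Prop :=
  (Z.prod Z).IsCyc Z.dim z ∧ ∀ i, ∀ x, InDegree W Z i x → act W Z z x = scale W Z (f i : W.K) x

end Basic

section Restr

variable {k : Type u} [Field k] {𝒱 : VarClass k} {ops : CycleOps 𝒱}
  {k' : Type u} [Field k'] {𝒱' : VarClass k'} {ops' : CycleOps 𝒱'}

/-- The restriction maps in cohomology from `V` to `Z` and from `V × V` to `Z × Z`, and the
homomorphism `σ` of the coefficient fields. -/
structure Restr (W : WeilCohomology.{u, v} ops) (W' : WeilCohomology.{u, v} ops') (V : 𝒱.Obj)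
    (Z : 𝒱'.Obj) where
  /-- the homomorphism of the coefficient fields -/
  σ : W.K →+* W'.K
  /-- the restriction from `V` to `Z` -/
  res : W.H V →+* W'.H Z
  /-- the restriction from `V × V` to `Z × Z` -/
  res₂ : W.H (V.prod V) →+* W'.H (Z.prod Z)

variable {W : WeilCohomology.{u, v} ops} {W' : WeilCohomology.{u, v} ops'} {V : 𝒱.Obj}
  {Z : 𝒱'.Obj} (R : Restr W W' V Z)

/-- The restriction of a class on `V` to `Z`. -/
noncomputable def Restr.app (a : W.H V) : W'.H Z := R.res a

/-- The restriction of a class on `V × V` to `Z × Z`. -/
noncomputable def Restr.app₂ (a : W.H (V.prod V)) : W'.H (Z.prod Z) := R.res₂ a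

/-- The image of a scalar under the homomorphism of the coefficient fields. -/
noncomputable def Restr.coeff (c : W.K) : W'.K := R.σ c

/-- The restriction from `V` to `Z` is linear over `σ`. -/
def Restr.Semilinear : Prop :=
  ∀ (c : W.K) (a : W.H V), R.app (scale W V c a) = scale W' Z (R.coeff c) (R.app a)

/-- The restriction from `V × V` to `Z × Z` is linear over `σ`. -/
def Restr.Semilinear₂ : Prop :=
  ∀ (c : W.K) (a : W.H (V.prod V)),
    R.app₂ (scale W (V.prod V) c a) = scale W' (Z.prod Z) (R.coeff c) (R.app₂ a)

/-- The restriction preserves the degrees. -/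
def Restr.Graded : Prop :=
  ∀ (i : ℕ) (a : W.H V), InDegree W V i a → InDegree W' Z i (R.app a)

/-- The restriction maps are compatible with the first projections. -/
def Restr.CompatFst : Prop :=
  ∀ a : W.H V, R.app₂ (pullFst W V a) = pullFst W' Z (R.app a)

/-- The restriction maps are compatible with the second projections. -/
def Restr.CompatSnd : Prop :=
  ∀ a : W.H V, R.app₂ (pullSnd W V a) = pullSnd W' Z (R.app a)

/-- The class of `Z` in `V` is the class of `E`: the degree of the restriction of `a` to `Z` is the
degree of `E · a`. -/
def Restr.HasClass (E : V.Cycles) : Prop :=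
  ∀ a : W.H V, trace W' Z (R.app a) = R.coeff (pairing W V (classOf W V E) a)

/-- Weak Lefschetz theorem, injectivity in the degrees `≤ dim Z`. -/
def Restr.Inj : Prop :=
  ∀ i ≤ Z.dim, ∀ a, InDegree W V i a → R.app a = 0 → a = 0

/-- Weak Lefschetz theorem, surjectivity in the degrees `< dim Z`: every class is a linear
combination of restrictions. -/
def Restr.Surj : Prop :=
  ∀ i < Z.dim, ∀ b, InDegree W' Z i b → ∃ (n : ℕ) (c : Fin n → W'.K) (a : Fin n → W.H V),
    (∀ j, InDegree W V i (a j)) ∧ b = ∑ j, scale W' Z (c j) (R.app (a j))

/-- There is a vanishing class: a nonzero class in the middle degree which is orthogonal to the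
restrictions of all the classes from `V`. -/
def Restr.HasVanishing : Prop :=
  ∃ y, InDegree W' Z Z.dim y ∧ y ≠ 0 ∧ ∀ a : W.H V, pairing W' Z y (R.app a) = 0

/-- The class `c` is the restriction of the class of a cycle of codimension `dim Z` on `V × V`
plus a rational multiple of the class of the diagonal. -/
def Restr.FromV (c : W'.H (Z.prod Z)) : Prop :=
  ∃ ζ, (V.prod V).IsCyc Z.dim ζ ∧ ∃ q : ℚ,
    c = R.app₂ (classOf W (V.prod V) ζ) + scale W' (Z.prod Z) (q : W'.K) (diagClass W' Z)

/-- A cycle on `Z × Z` of codimension `dim Z` which acts on each `H^i(Z)` by a rational scalar is,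
up to homological equivalence, the restriction of a cycle on `V × V` plus a multiple of the
diagonal. (The class of such a cycle is invariant under the Galois group of `k'` over `k(T)`, so
that the cycle may be taken over `k(T)`; and every cycle of this codimension over `k(T)` is
rationally equivalent to such a sum, since over `T` the square of the universal section is a
projective bundle over the complement of the diagonal of `V × V`, and one over the
diagonal.) -/
def Restr.CyclesFromV : Prop :=
  ∀ (f : ℕ → ℚ) (z : (Z.prod Z).Cycles), ActsByScalars W' Z f z →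
    R.FromV (classOf W' (Z.prod Z) z)

/-- Cycles on `V × V` restrict to cycles on `Z × Z`. -/
def Restr.RestrictsCycles : Prop :=
  ∀ ζ, (V.prod V).IsCyc Z.dim ζ → ∃ z, (Z.prod Z).IsCyc Z.dim z ∧
    classOf W' (Z.prod Z) z = R.app₂ (classOf W (V.prod V) ζ)

end Restr

/-- `Z` behaves like the generic hyperplane section of `V` with respect to the very ample divisor
`E`. Here `V` is a variety over the algebraically closed field `k`, and `Z` is the fibre of the
universal hyperplane section of `V` over a geometric generic point of the dual projective space,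
a variety over an algebraic closure `k'` of the function field `k(T)` of the dual projective space
`T`; `W` and `W'` are the corresponding cohomology theories (for example `l`-adic cohomology). All
the properties are known theorems for these sections if `E` is sufficiently ample. -/
structure GenericSection {k : Type u} [Field k] {𝒱 : VarClass k} {ops : CycleOps 𝒱}
    {k' : Type u} [Field k'] {𝒱' : VarClass k'} {ops' : CycleOps 𝒱'}
    (W : WeilCohomology.{u, v} ops) (W' : WeilCohomology.{u, v} ops') (V : 𝒱.Obj)
    (E : V.Cycles) where
  /-- the section -/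
  Z : 𝒱'.Obj
  dim_eq : V.dim = Z.dim + 1
  /-- the restriction maps -/
  R : Restr W W' V Z
  semilinear : R.Semilinear
  semilinear₂ : R.Semilinear₂
  graded : R.Graded
  compatFst : R.CompatFst
  compatSnd : R.CompatSnd
  hasClass : R.HasClass E
  weakInj : R.Inj
  weakSurj : R.Surj
  hasVanishing : R.HasVanishing
  cyclesFromV : R.CyclesFromV
  restrictsCycles : R.RestrictsCycles

/-- `P` behaves like the projective line and `h` like a point on it: `dim P = 1`, the degree of `h`
is `1`, and the cohomology of `P` is spanned by `1` and the class of `h`. -/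
structure IsProjectiveLine {k : Type u} [Field k] {𝒱 : VarClass k} {ops : CycleOps 𝒱}
    (W : WeilCohomology.{u, v} ops) (P : 𝒱.Obj) (h : P.Cycles) : Prop where
  dim : P.dim = 1
  div : P.IsCyc 1 h
  deg : trace W P (classOf W P h) = 1
  span : ∀ x : W.H P, ∃ a b : W.K, x = scale W P a 1 + scale W P b (classOf W P h)

/-- Some cycle on `Z × Z` of codimension `dim Z` acts on each `H^i(Z)` by a rational scalar, with
different scalars in the middle degree `dim Z` and in the degree `dim Z - 1` below it. -/
def Separates {k : Type u} [Field k] {𝒱 : VarClass k} {ops : CycleOps 𝒱}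
    (W : WeilCohomology.{u, v} ops) (Z : 𝒱.Obj) : Prop :=
  ∃ (f : ℕ → ℚ) (z : (Z.prod Z).Cycles), ActsByScalars W Z f z ∧
    ∀ i, i + 1 = Z.dim → f i ≠ f (i + 1)

end Pool.Agent.N209.GS
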