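import Pool.Agent.N209.GS.Acc
import Pool.Agent.H447R3.NumB

/-!
# Generic hyperplane sections: correspondences
-/

set_option autoImplicit false

open CategoryTheory AlgebraicGeometry Finset

universe u v

namespace Pool.Agent.N209.GS

open Pool.Agent.H914 Pool.Agent.H447 VarClass Obj WeilCohomology

variable {k k' : Type u} [Field k] [Field k'] {𝒱 : VarClass k} {ops : CycleOps 𝒱}
  {𝒱' : VarClass k'} {ops' : CycleOps 𝒱'} {W : WeilCohomology.{u, v} ops}
  {W' : WeilCohomology.{u, v} ops'} {V : 𝒱.Obj} {E : V.Cycles}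

/-- The diagonal acts as the identity. -/
lemma corr_diagClass (W : WeilCohomology.{u, v} ops) (Z : 𝒱.Obj) (a : W.H Z) :
    W.corr (diagClass W Z) a = a := by
  rw [diagClass, W.cl_push, corr_diag, W.cl_fund, one_mul]

/-- Correspondences with rational coefficients preserve the span of the algebraic classes. -/
lemma corr_span {X Y : 𝒱.Obj} {p q r : ℕ} {ζ : (X.prod Y).Cycles} (hζ : (X.prod Y).IsCyc p ζ)
    {γ : W.H X} (hγ : γ ∈ spanCycles W X q) (h : p + q = r + X.dim) :
    W.corr (W.cl _ ζ) γ ∈ spanCycles W Y r := by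
  induction hγ using Submodule.span_induction with
  | mem x hx =>
    obtain ⟨q', hq', w, hw, rfl⟩ := hx
    obtain rfl : q' = q := by exact_mod_cast hq'
    refine Submodule.subset_span ⟨r, rfl, ops.push (snd X Y) (ops.mul ζ (ops.pull (fst X Y) w)),
      ops.push_mem _ (ops.mul_mem hζ (ops.pull_mem _ hw)) (by rw [dim_prod]; omega), ?_⟩
    rw [W.cl_push, W.cl_mul, W.cl_pull, corr_apply]
  | zero => rw [map_zero]; exact Submodule.zero_mem _
  | add x y _ _ hx hy => rw [map_add]; exact Submodule.add_mem _ hx hy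
  | smul a x _ hx => rw [map_smul]; exact Submodule.smul_mem _ _ hx

namespace GenericSection

variable (S : GenericSection W W' V E)

/-- Push-forward and restriction. -/
lemma push_res (c : W.H (V.prod V)) :
    W'.push (snd S.Z S.Z) (S.res₂ c) =
      S.res (W.push (snd V V) (W.map (fst V V) (W.cl V E) * c)) := by
  refine W.kunneth_induction (p := fun c => W'.push (snd S.Z S.Z) (S.res₂ c) =
      S.res (W.push (snd V V) (W.map (fst V V) (W.cl V E) * c))) ?_ ?_ c
  · intro a b ha hb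
    rw [map_add, map_add, ha, hb, mul_add, map_add, map_add]
  · intro i j a _ b _
    rw [map_mul S.res₂, S.res₂_fst, S.res₂_snd, push_snd, S.tr_res, ← mul_assoc,
      ← map_mul (W.map (fst V V)), push_snd, S.res_smul]

/-- The action of the restriction of a correspondence on a restricted class. -/
lemma corr_res (hE : V.IsCyc 1 E) (x : W.H (V.prod V)) (a : W.H V) :
    W'.corr (S.res₂ x) (S.res a) = S.res (W.corr x (W.cl V E * a)) := by
  rw [corr_apply, ← S.res₂_fst, ← map_mul S.res₂, S.push_res, corr_apply,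
    map_mul (W.map (fst V V)), ← mul_assoc, ← mul_assoc,
    W.even_comm (W.map_mem _ (W.cl_mem hE))]

/-- The restrictions of correspondences kill the vanishing classes. -/
lemma corr_vanishing (x : W.H (V.prod V)) {y : W'.H S.Z} (hy : y ∈ W'.gr S.Z S.Z.dim)
    (hy0 : ∀ a : W.H V, W'.tr S.Z (y * S.res a) = 0) : W'.corr (S.res₂ x) y = 0 := by
  refine W.kunneth_induction (p := fun x => W'.corr (S.res₂ x) y = 0) ?_ ?_ x
  · intro a b ha hb
    rw [map_add, corr_add, LinearMap.add_apply, ha, hb, add_zero]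
  · intro i j a ha b hb
    rw [corr_apply, map_mul S.res₂, S.res₂_fst, S.res₂_snd, mul_assoc,
      W'.comm (W'.map_mem (snd _ _) (S.res_mem hb)) (W'.map_mem (fst _ _) hy), mul_smul_comm,
      ← mul_assoc, ← map_mul (W'.map (fst _ _)), map_smul, push_snd,
      W'.comm (S.res_mem ha) hy, map_smul, hy0, smul_zero, zero_smul, smul_zero]

end GenericSection

/-- The action of a cycle in terms of the decomposition. -/
lemma GenericSection.act (S : GenericSection W W' V E) {z : (S.Z.prod S.Z).Cycles}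
    {ζ : (V.prod V).Cycles} {c : ℚ} (hc : W'.cl (S.Z.prod S.Z) z =
      S.res₂ (W.cl (V.prod V) ζ) + (c : W'.K) • diagClass W' S.Z) (x : W'.H S.Z) :
    W'.corr (W'.cl _ z) x = W'.corr (S.res₂ (W.cl _ ζ)) x + (c : W'.K) • x := by
  rw [hc, corr_add, corr_smul, LinearMap.add_apply, LinearMap.smul_apply, corr_diagClass]

/-- A cycle on `Z × Z` which acts by scalars gives a cycle on `V × V`. -/
lemma exists_scalars (S : GenericSection W W' V E) (hE : V.IsCyc 1 E) {f : ℕ → ℚ}
    {z : (S.Z.prod S.Z).Cycles} (hz : ActsByScalars W' S.Z f z) :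
    ∃ ζ, (V.prod V).IsCyc S.Z.dim ζ ∧ ∀ i ≤ S.Z.dim, ∀ y ∈ W.gr V i,
      W.corr (W.cl _ ζ) (W.cl V E * y) = ((f i - f S.Z.dim : ℚ) : W.K) • y := by
  obtain ⟨ζ, hζ, c, hc⟩ := S.cycles f z hz
  have hdim := S.dim_eq
  have hc0 : c = f S.Z.dim := by
    obtain ⟨y₀, hy₀, hne, hperp⟩ := S.vanishing
    have h1 := S.act hc y₀
    rw [hz.app _ y₀ hy₀, S.corr_vanishing _ hy₀ hperp, zero_add] at h1
    have h2 : ((c : W'.K) - (f S.Z.dim : W'.K)) • y₀ = 0 := by
      rw [sub_smul, h1, sub_self]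
    rcases smul_eq_zero.1 h2 with h3 | h3
    · exact_mod_cast sub_eq_zero.1 h3
    · exact absurd h3 hne
  refine ⟨ζ, hζ, fun i hi y hy => ?_⟩
  have h1 := S.act hc (S.res y)
  rw [hz.app i _ (S.res_mem hy), S.corr_res hE] at h1
  have hmem : W.corr (W.cl _ ζ) (W.cl V E * y) ∈ W.gr V i := by
    have h3 := W.corr_isHom (W.cl_mem hζ) ((2 * 1 + i : ℕ) : ℤ) (W.cl V E * y)
      (by rw [grZ_natCast]; exact W.mul_mem (W.cl_mem hE) hy)
    have e : ((2 * 1 + i : ℕ) : ℤ) + 2 * (((S.Z.dim : ℕ) : ℤ) - V.dim) = (i : ℤ) := by omega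
    rwa [e, grZ_natCast] at h3
  have h2 : S.res (W.corr (W.cl _ ζ) (W.cl V E * y) - ((f i - f S.Z.dim : ℚ) : W.K) • y) = 0 := by
    rw [map_sub, S.res_smul, map_ratCast, Rat.cast_sub, sub_smul, h1, hc0]
    abel
  exact sub_eq_zero.1 (S.inj i hi _ (Submodule.sub_mem _ hmem (Submodule.smul_mem _ _ hy)) h2)

/-- A separating cycle on `Z × Z` gives an algebraic inverse of the cup product with `E` just below
the middle of `V`. -/
theorem exists_inverse (S : GenericSection W W' V E) (hE : V.IsCyc 1 E) (h : Separates W' S.Z) :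
    ∃ ζ, (V.prod V).IsCyc (V.dim - 1) ζ ∧
      ∀ i, i + 2 = V.dim → ∀ y ∈ W.gr V i, W.corr (W.cl _ ζ) (W.cl V E * y) = y := by
  obtain ⟨f, z, hz, hf⟩ := h
  obtain ⟨ζ, hζ, h1⟩ := exists_scalars S hE hz
  have hdim := S.dim_eq
  have hd : V.dim - 1 = S.Z.dim := by omega
  by_cases h0 : 1 ≤ S.Z.dim
  · have hf' : f (S.Z.dim - 1) - f S.Z.dim ≠ 0 := by
      have h2 := hf (S.Z.dim - 1) (by omega)
      rw [show S.Z.dim - 1 + 1 = S.Z.dim by omega] at h2
      exact sub_ne_zero.2 h2
    refine ⟨(f (S.Z.dim - 1) - f S.Z.dim)⁻¹ • ζ, by rw [hd]; exact hζ.smul _,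
      fun i hi y hy => ?_⟩
    obtain rfl : i = S.Z.dim - 1 := by omega
    rw [cl_smul, corr_smul, LinearMap.smul_apply, h1 _ (by omega) y hy, smul_smul,
      ← Rat.cast_mul, inv_mul_cancel₀ hf', Rat.cast_one, one_smul]
  · exact ⟨ζ, by rw [hd]; exact hζ, fun i hi => by omega⟩

end Pool.Agent.N209.GS
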