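import Pool.Agent.N209.GS.Bwd

/-!
# The Kunneth projectors of `X` from those of the generic hyperplane section of `X × X`
-/

set_option autoImplicit false

open CategoryTheory AlgebraicGeometry Finset

universe u v

namespace Pool.Agent.N209.GS

open Pool.Agent.H914 Pool.Agent.H447 Pool.Agent.W534 Pool.Agent.TH720.LB VarClass Obj
  WeilCohomology

variable {k : Type u} [Field k] {𝒱 : VarClass k} {ops : CycleOps 𝒱}
  {W : WeilCohomology.{u, v} ops} {X : 𝒱.Obj} {D : X.Cycles}
  {k' : Type u} [Field k'] {𝒱' : VarClass k'} {ops' : CycleOps 𝒱'}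
  {W' : WeilCohomology.{u, v} ops'} {V : 𝒱.Obj} {E : V.Cycles}

/-- A Kunneth projector of the section in a degree below the middle comes from `V`. -/
lemma exists_low (S : GenericSection W W' V E) (hE : V.IsCyc 1 E) (h : KunnethStd W' S.Z) {i : ℕ}
    (hi : i < S.Z.dim) : ∃ T, QOp W V V (-1) T ∧
      ∀ j ≤ S.Z.dim, ∀ a ∈ W.gr V j, T (W.cl V E * a) = if j = i then a else 0 := by
  have hdim := S.dim_eq
  obtain ⟨z, hz, hz1⟩ := h i
  have hz' : ActsByScalars W' S.Z (fun j => if j = i then 1 else 0) z := by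
    refine .of hz fun j x hx => ?_
    rw [hz1 j x hx]
    by_cases hij : j = i
    · simp [hij]
    · simp [hij]
  obtain ⟨ζ, hζ, h1⟩ := exists_scalars S hE hz'
  refine ⟨W.corr (W.cl _ ζ), QOp.gen (p := S.Z.dim) (by omega) hζ, fun j hj a ha => ?_⟩
  rw [h1 j hj a ha]
  beta_reduce
  rw [if_neg (show ¬ S.Z.dim = i by omega), sub_zero]
  by_cases hij : j = i
  · simp [hij]
  · simp [hij]

/-- **The conjecture C for `X` follows from the conjecture C for a generic hyperplane section of
`X × X`.** -/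
theorem kunneth_of_section (hD : X.IsCyc 1 D) (hX : HardLefschetz W X D) (hn : 1 ≤ X.dim)
    {E : (X.prod X).Cycles} (hE : (X.prod X).IsCyc 1 E) (S : GenericSection W W' (X.prod X) E)
    (h : KunnethStd W' S.Z) : KunnethStd W X := by
  have hdim := S.dim_eq
  rw [dim_prod] at hdim
  apply kunneth_of_low
  intro i hi
  by_cases h1 : (1 : W.H X) = 0
  · have h0 : proj (W.isInternal X) i = 0 := by
      apply LinearMap.ext
      intro a
      rw [← one_mul a, h1, zero_mul, map_zero, map_zero]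
    rw [h0]
    exact rop_opAlg.zero 0
  obtain ⟨T, hT, hTa⟩ := exists_low S hE h (i := i) (by omega)
  set ξ := W.cl X D with hξ
  have hfund := divPow_mem (ops := ops) hD X.dim X.V.fundCycle_mem
  rw [zero_add] at hfund
  have hcl : W.cl X (divPow ops D X.dim X.V.fundCycle) = ξ ^ X.dim := by
    rw [cl_divPow, W.cl_fund, mulLeft_pow_apply, mul_one]
  obtain ⟨q, hq⟩ : ∃ q : ℚ, W.tr X (ξ ^ X.dim) = (q : W.K) :=
    ⟨_, by rw [← hcl]; exact W.tr_cl hfund⟩
  have hq0 : (q : W.K) ≠ 0 := by
    rw [← hq]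
    exact X310.Mom.tr_pow_ne hD hX h1
  have hξm : ξ ^ X.dim ∈ W.gr X (2 * X.dim) := by
    rw [← hcl]; exact W.cl_mem hfund
  -- the operator through the square
  set U : W.H X →ₗ[W.K] W.H X :=
    W.push (fst X X) ∘ₗ (LinearMap.mulLeft W.K (W.cl _ (ops.pull (snd X X) D) ^ X.dim) ∘ₗ
      (T ∘ₗ (LinearMap.mulLeft W.K (W.cl _ E) ∘ₗ (W.map (fst X X)).toLinearMap))) with hU
  have hUq : QOp W X X 0 U := by
    have h2 := (qop_push (W := W) (fst X X)).comp
      ((qop_mul_pow (W := W) (ops.pull_mem (snd X X) hD) X.dim).comp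
        (hT.comp ((qop_mul (W := W) hE).comp (qop_pull (W := W) (fst X X)))))
    refine h2.cast ?_
    rw [dim_prod]
    push_cast; ring
  have hUa : ∀ j ≤ S.Z.dim, ∀ a ∈ W.gr X j, U a = if j = i then (q : W.K) • a else 0 := by
    intro j hj a ha
    have h2 : U a = W.push (fst X X) (W.cl _ (ops.pull (snd X X) D) ^ X.dim *
        T (W.cl _ E * W.map (fst X X) a)) := rfl
    rw [h2, hTa j hj _ (W.map_mem _ ha)]
    split_ifs with hij
    · rw [W.cl_pull, ← map_pow, push_fst_mul hξm, hq]
    · rw [mul_zero, map_zero]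
  -- the projector onto the top degree
  set P : W.H X →ₗ[W.K] W.H X :=
    W.corr (W.cl _ (ops.pull (snd X X) (divPow ops D X.dim X.V.fundCycle))) with hP
  have hPq : QOp W X X 0 P :=
    QOp.gen (p := X.dim) (by simp) (ops.pull_mem _ hfund)
  have hPa : ∀ a : W.H X, P a = W.tr X a • ξ ^ X.dim := by
    intro a
    rw [hP, corr_apply, W.cl_pull, hcl, W.even_comm (W.map_mem _ hξm), push_snd]
  have key : proj (W.isInternal X) i =
      ((q⁻¹ : ℚ) : W.K) • (U ∘ₗ (LinearMap.id - ((q⁻¹ : ℚ) : W.K) • P)) := by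
    apply gr_ext (W.isInternal X)
    intro j a ha
    rw [LinearMap.smul_apply, LinearMap.comp_apply, LinearMap.sub_apply, LinearMap.smul_apply,
      LinearMap.id_apply, hPa]
    by_cases hj : j = 2 * X.dim
    · subst hj
      have h2 : a - ((q⁻¹ : ℚ) : W.K) • (W.tr X a • ξ ^ X.dim) = 0 := by
        apply X310.tr_top_inj
        · exact Submodule.sub_mem _ ha (Submodule.smul_mem _ _ (Submodule.smul_mem _ _ hξm))
        · rw [map_sub, map_smul, map_smul, hq, smul_eq_mul, smul_eq_mul, Rat.cast_inv]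
          field_simp
          ring
      rw [h2, map_zero, smul_zero, proj_ne _ ha (by omega)]
    · rw [W.tr_eq_zero ha hj, zero_smul, smul_zero, sub_zero]
      by_cases hj2 : 2 * X.dim < j
      · rw [W.gr_eq_bot X j hj2] at ha
        rw [(Submodule.mem_bot _).1 ha, map_zero, map_zero, smul_zero]
      · rw [hUa j (by omega) a ha]
        split_ifs with hij
        · subst hij
          rw [proj_same _ ha, smul_smul, Rat.cast_inv, inv_mul_cancel₀ hq0, one_smul]
        · rw [proj_ne _ ha hij, smul_zero]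
  rw [key, rop_iff]
  refine QOp.smul _ ?_
  exact (hUq.comp (qop_sub qop_id (hPq.smul _))).cast (by ring)

/-- **B for `X` is equivalent to C for the generic hyperplane section of `X × X`.** -/
theorem tfae' (hD : X.IsCyc 1 D) (hX : HardLefschetz W X D) (hn : 1 ≤ X.dim)
    (S : GenericSection W W' (X.prod X) (sumDiv ops D D)) :
    List.TFAE [LefschetzB W X D, KunnethStd W' S.Z, KunnethStd W X ∧ SignStd W' S.Z,
      KunnethStd W X ∧ Separates W' S.Z] := by
  have h := tfae hD hX hn S
  have h12 : LefschetzB W X D ↔ KunnethStd W X ∧ KunnethStd W' S.Z := h.out 0 1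
  have h34 : KunnethStd W X ∧ SignStd W' S.Z ↔ KunnethStd W X ∧ Separates W' S.Z := h.out 2 3
  have h14 : LefschetzB W X D ↔ KunnethStd W X ∧ Separates W' S.Z := h.out 0 3
  tfae_have 1 → 2 := fun hB => (h12.1 hB).2
  tfae_have 2 → 3 := fun hZ =>
    ⟨kunneth_of_section hD hX hn (isCyc_sumDiv hD hD) S hZ, sign_of_kunneth hZ⟩
  tfae_have 3 → 4 := h34.1
  tfae_have 4 → 1 := h14.2
  tfae_finish

end Pool.Agent.N209.GS
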