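import Pool.Agent.N209.GS.Sign

/-!
# The conjecture B for `X` from the sign conjecture for one variety
-/

set_option autoImplicit false

open CategoryTheory AlgebraicGeometry Finset

universe u v

namespace Pool.Agent.N209.GS

open Pool.Agent.H914 Pool.Agent.H447 Pool.Agent.W534 Pool.Agent.TH720.LB VarClass Obj
  WeilCohomology

variable {k : Type u} [Field k] {𝒱 : VarClass k} {ops : CycleOps 𝒱}
  {W : WeilCohomology.{u, v} ops} {X P : 𝒱.Obj} {D : X.Cycles} {h : P.Cycles}

/-- An operator of degree `-2` is algebraic if its anticommutator with `L` is algebraic. -/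
def HalfInv (W : WeilCohomology.{u, v} ops) (X : 𝒱.Obj) (D : X.Cycles) : Prop :=
  ∀ g : Module.End W.K (W.H X), IsHom (W.gr X) (-2) g →
    LinearMap.mulLeft W.K (W.cl X D) * g + g * LinearMap.mulLeft W.K (W.cl X D) ∈ KOp W X X 0 →
    g ∈ KOp W X X (-1)

lemma half_of_section {k' : Type u} [Field k'] {𝒱' : VarClass k'} {ops' : CycleOps 𝒱'}
    {W' : WeilCohomology.{u, v} ops'} (hD : X.IsCyc 1 D) (hn : 1 ≤ X.dim)
    (S : GenericSection W W' (X.prod X) (sumDiv ops D D)) (hS : Separates W' S.Z) :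
    HalfInv W X D := by
  obtain ⟨ζ, hζ, hinv⟩ := exists_inverse S (isCyc_sumDiv hD hD) hS
  intro g hg ha
  exact kop_of_inverse hD hn hζ hinv hg ha

section Line

variable (hP : X310.IsLine W P h)

include hP

lemma line_dec (y : W.H (X.prod P)) : inc W X h 0 (coe W X h 0 y) + inc W X h 1 (coe W X h 1 y) =
    y := by
  have h1 := decomp hP.proj.to y
  rw [hP.dim, Finset.sum_range_succ, Finset.sum_range_one] at h1
  exact h1

lemma line_inc2 (x : W.H X) : inc W X h (1 + 1) x = 0 := by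
  rw [inc_zero hP.proj.to (by rw [hP.dim]; omega), LinearMap.zero_apply]

lemma line_coe {a b : ℕ} (ha : a ≤ 1) (x : W.H X) :
    coe W X h a (inc W X h b x) = if a = b then x else 0 :=
  coe_inc hP.proj.to (by rw [hP.dim]; exact ha) x

lemma line_coe_mul0 (hD : X.IsCyc 1 D) (y : W.H (X.prod P)) :
    coe W X h 0 (W.cl _ (sumDiv ops D h) * y) = W.cl X D * coe W X h 0 y := by
  conv_lhs => rw [← line_dec hP y]
  rw [mul_add, mul_inc hD, mul_inc hD, line_inc2 hP, map_add, map_add, map_add,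
    line_coe hP (by omega), line_coe hP (by omega), line_coe hP (by omega), map_zero]
  simp

lemma line_coe_mul1 (hD : X.IsCyc 1 D) (y : W.H (X.prod P)) :
    coe W X h 1 (W.cl _ (sumDiv ops D h) * y) = coe W X h 0 y + W.cl X D * coe W X h 1 y := by
  conv_lhs => rw [← line_dec hP y]
  rw [mul_add, mul_inc hD, mul_inc hD, line_inc2 hP, map_add, map_add, map_add,
    line_coe hP (by omega), line_coe hP (by omega), line_coe hP (by omega), map_zero]
  simp

lemma kop_inc {a : ℕ} : inc W X h a ∈ KOp W X (X.prod P) a := (qop_inc hP.proj.to a).kop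

lemma kop_coe {a : ℕ} (ha : a ≤ 1) : coe W X h a ∈ KOp W (X.prod P) X (-a) :=
  (qop_coe (W := W) (X := X) hP.proj.to (a := a) (by rw [hP.dim]; exact ha)).kop

/-- From `X × P` to `X`. -/
lemma half_down (hD : X.IsCyc 1 D) (hH : HalfInv W (X.prod P) (sumDiv ops D h)) :
    HalfInv W X D := by
  intro g hg ha
  set f : W.H (X.prod P) →ₗ[W.K] W.H (X.prod P) :=
    inc W X h 0 ∘ₗ (g ∘ₗ coe W X h 0) - inc W X h 1 ∘ₗ (g ∘ₗ coe W X h 1) with hf
  have hfh : IsHom (W.gr (X.prod P)) (-2) f := by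
    intro i y hy
    have h0 := KOp.isHom (kop_coe (W := W) (X := X) hP (a := 0) (by omega)) i y hy
    have h1 := KOp.isHom (kop_coe (W := W) (X := X) hP (a := 1) (by omega)) i y hy
    have h2 := KOp.isHom (kop_inc (W := W) (X := X) hP (a := 0)) _ _ (hg _ _ h0)
    have h3 := KOp.isHom (kop_inc (W := W) (X := X) hP (a := 1)) _ _ (hg _ _ h1)
    have e2 : i + 2 * -((0 : ℕ) : ℤ) + -2 + 2 * (((0 : ℕ) : ℕ) : ℤ) = i + -2 := by
      push_cast; ring
    have e3 : i + 2 * -((1 : ℕ) : ℤ) + -2 + 2 * (((1 : ℕ) : ℕ) : ℤ) = i + -2 := by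
      push_cast; ring
    rw [e2] at h2
    rw [e3] at h3
    exact Submodule.sub_mem _ h2 h3
  set G : W.H X →ₗ[W.K] W.H X :=
    LinearMap.mulLeft W.K (W.cl X D) * g + g * LinearMap.mulLeft W.K (W.cl X D) with hG
  have hGa : ∀ x, G x = W.cl X D * g x + g (W.cl X D * x) := fun x => rfl
  have hcomm : LinearMap.mulLeft W.K (W.cl _ (sumDiv ops D h)) * f +
      f * LinearMap.mulLeft W.K (W.cl _ (sumDiv ops D h)) =
      inc W X h 0 ∘ₗ (G ∘ₗ coe W X h 0) - inc W X h 1 ∘ₗ (G ∘ₗ coe W X h 1) := by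
    apply LinearMap.ext
    intro y
    have e1 : (LinearMap.mulLeft W.K (W.cl _ (sumDiv ops D h)) * f +
        f * LinearMap.mulLeft W.K (W.cl _ (sumDiv ops D h))) y =
        W.cl _ (sumDiv ops D h) * (inc W X h 0 (g (coe W X h 0 y)) -
          inc W X h 1 (g (coe W X h 1 y))) +
        (inc W X h 0 (g (coe W X h 0 (W.cl _ (sumDiv ops D h) * y))) -
          inc W X h 1 (g (coe W X h 1 (W.cl _ (sumDiv ops D h) * y)))) := rfl
    have e2 : (inc W X h 0 ∘ₗ (G ∘ₗ coe W X h 0) - inc W X h 1 ∘ₗ (G ∘ₗ coe W X h 1)) y =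
        inc W X h 0 (G (coe W X h 0 y)) - inc W X h 1 (G (coe W X h 1 y)) := rfl
    rw [e1, e2, line_coe_mul0 hP hD, line_coe_mul1 hP hD, mul_sub, mul_inc hD, mul_inc hD,
      line_inc2 hP, hGa, hGa]
    simp only [map_add, zero_add, add_zero]
    abel
  have hfK : f ∈ KOp W (X.prod P) (X.prod P) (-1) := by
    refine hH f hfh ?_
    rw [hcomm]
    refine Submodule.sub_mem _ ?_ ?_
    · exact KOp.cast (KOp.comp (kop_inc hP) (KOp.comp ha (kop_coe hP (by omega)))) (by simp)
    · exact KOp.cast (KOp.comp (kop_inc hP) (KOp.comp ha (kop_coe hP (by omega)))) (by simp)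
  have hg' : g = coe W X h 0 ∘ₗ (f ∘ₗ inc W X h 0) := by
    apply LinearMap.ext
    intro x
    have e1 : (coe W X h 0 ∘ₗ (f ∘ₗ inc W X h 0)) x =
        coe W X h 0 (inc W X h 0 (g (coe W X h 0 (inc W X h 0 x))) -
          inc W X h 1 (g (coe W X h 1 (inc W X h 0 x)))) := rfl
    rw [e1, line_coe hP (by omega), line_coe hP (by omega), map_sub, line_coe hP (by omega),
      line_coe hP (by omega)]
    simp
  rw [hg']
  exact KOp.cast (KOp.comp (kop_coe hP (by omega)) (KOp.comp hfK (kop_inc hP))) (by simp)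

/-- The relations, from the property `HalfInv` for `X × P`. -/
theorem exists_rel' (hD : X.IsCyc 1 D) (hX : HardLefschetz W X D) (hs : SignStd W (X.prod P))
    (hH : HalfInv W (X.prod P) (sumDiv ops D h)) :
    ∃ p q, p ∈ KOp W X X (-1) ∧
      Rel (W.gr X) X.dim (LinearMap.mulLeft W.K (W.cl X D)) p q := by
  have hPP := hP.proj.to
  have hdim : (X.prod P).dim = X.dim + 1 := by rw [dim_prod X P, hP.dim]
  have hcyc : (X.prod P).IsCyc 1 (sumDiv ops D h) := isCyc_sumDiv hD hPP.div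
  have hHL' := hP.hard_prod hD hX
  obtain ⟨f, hfh, hf⟩ := exists_half (W.isInternal (X.prod P)) (isHom_mulLeft W hcyc) W_hbd hHL'
  have hfK : f ∈ KOp W (X.prod P) (X.prod P) (-1) := by
    refine hH f hfh ?_
    rw [hf]
    exact mem_KS_iff.1 (Submodule.subset_span (rop_parity hs _))
  have hfa : ∀ j, (j + X.dim) % 2 = 0 → ∀ y ∈ W.gr (X.prod P) j,
      W.cl _ (sumDiv ops D h) * f y + f (W.cl _ (sumDiv ops D h) * y) = y := by
    intro j hj y hy
    have h1 := congrArg (fun F => F y) hf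
    simp only [LinearMap.add_apply, Module.End.mul_apply, LinearMap.mulLeft_apply] at h1
    rw [h1, scal_apply _ _ hy, if_pos (by rw [hdim]; omega), one_smul]
  have hinc_mem : ∀ {j : ℕ} {x : W.H X} (a : ℕ), x ∈ W.gr X j →
      inc W X h a x ∈ W.gr (X.prod P) (2 * a + j) := by
    intro j x a hx
    rw [inc_apply]
    exact W.mul_mem (W.map_mem _ (t_mem hPP a)) (W.map_mem _ hx)
  set p : Module.End W.K (W.H X) := coe W X h 0 ∘ₗ (f ∘ₗ inc W X h 0) with hp
  set q : Module.End W.K (W.H X) := coe W X h 0 ∘ₗ (f ∘ₗ inc W X h 1) with hq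
  have hpK : p ∈ KOp W X X (-1) :=
    KOp.cast (KOp.comp (kop_coe hP (by omega)) (KOp.comp hfK (kop_inc hP))) (by simp)
  have hqK : q ∈ KOp W X X 0 :=
    KOp.cast (KOp.comp (kop_coe hP (by omega)) (KOp.comp hfK (kop_inc hP))) (by simp)
  have hcoe0 : ∀ x : W.H X, coe W X h 0 (inc W X h 0 x) = x := by
    intro x
    rw [line_coe hP (by omega), if_pos rfl]
  have hcoe1 : ∀ x : W.H X, coe W X h 0 (inc W X h 1 x) = 0 := by
    intro x
    rw [line_coe hP (by omega), if_neg (by omega)]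
  refine ⟨p, q, hpK, ⟨?_, ?_, ?_, ?_⟩⟩
  · intro i a ha
    have := KOp.isHom hpK i a ha
    simpa using this
  · intro i a ha
    have := KOp.isHom hqK i a ha
    simpa using this
  · intro j hj x hx
    have h1 := hfa j hj (inc W X h 0 x) (by simpa using hinc_mem 0 hx)
    have h2 := congrArg (coe W X h 0) h1
    rw [map_add, line_coe_mul0 hP hD, mul_inc hD, map_add, map_add, zero_add, hcoe0] at h2
    rw [LinearMap.mulLeft_apply, LinearMap.mulLeft_apply]
    have h3 : W.cl X D * p x + (p (W.cl X D * x) + q x) = x := h2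
    rw [← add_assoc] at h3
    rw [eq_sub_iff_add_eq]
    exact h3
  · intro j hj x hx
    have h1 := hfa (2 * 1 + j) (by omega) (inc W X h 1 x) (hinc_mem 1 hx)
    have h2 := congrArg (coe W X h 0) h1
    rw [map_add, line_coe_mul0 hP hD, mul_inc hD, line_inc2 hP, add_zero, hcoe1] at h2
    rw [LinearMap.mulLeft_apply, LinearMap.mulLeft_apply]
    exact h2

/-- The inverses in the degrees of the parity of `dim X`. -/
theorem kinv_even' (hD : X.IsCyc 1 D) (hX : HardLefschetz W X D) (hs : SignStd W (X.prod P))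
    (hH : HalfInv W (X.prod P) (sumDiv ops D h)) {c : ℕ}
    (hc : c ≤ X.dim) (hce : Even c) : X310.Gap.KInv W X D c := by
  obtain ⟨p, q, hp, r⟩ := exists_rel' hP hD hX hs hH
  apply X310.Gap.kinv_of_inj hD hX hc
  have hOA := (rop_opAlg (W := W) (X := X)).kspan
  have hpc : p ^ c ∈ KOp W X X (-(c : ℤ)) := by
    rw [← mem_KS_iff]
    exact hOA.cast (hOA.pow (mem_KS_iff.2 hp) c) (by ring)
  obtain ⟨γ, hγ, hγ'⟩ := mem_KOp_iff.1 hpc
  refine ⟨γ, hγ, fun x hx h0 => r.pow_inj (isHom_mulLeft W hD) hX (W.isInternal X) W_hbd hc hce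
    hx ?_⟩
  rw [← hγ']
  exact h0

/-- **The conjecture B for `X` from one section.** -/
theorem lefschetzB_of_half (hD : X.IsCyc 1 D) (hX : HardLefschetz W X D) (hs : SignStd W X)
    (hH : HalfInv W ((X.prod P).prod P) (sumDiv ops (sumDiv ops D h) h)) :
    LefschetzB W X D := by
  have hcyc : (X.prod P).IsCyc 1 (sumDiv ops D h) := isCyc_sumDiv hD hP.proj.to.div
  have hX' := hP.hard_prod hD hX
  have hdim : (X.prod P).dim = X.dim + 1 := by rw [dim_prod X P, hP.dim]
  have hs₁ := sign_prod hP hs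
  have hs₂ := sign_prod hP hs₁
  have hH₁ := half_down hP hcyc hH
  refine (X310.lefschetzB_iff_kinv hD hX).2 ?_
  have key : ∀ r c, c ≤ X.dim → X.dim - c ≤ r → X310.Gap.KInv W X D c := by
    intro r
    induction r with
    | zero =>
      intro c hc hr
      rcases Nat.even_or_odd c with h1 | h1
      · exact kinv_even' hP hD hX hs₁ hH₁ hc h1
      · exact X310.Gap.down hP.proj.to hP.dim hD hX hc
          (kinv_even' hP hcyc hX' hs₂ hH (by omega) h1.add_one) (by intro h; omega)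
    | succ r ih =>
      intro c hc hr
      rcases Nat.even_or_odd c with h1 | h1
      · exact kinv_even' hP hD hX hs₁ hH₁ hc h1
      · exact X310.Gap.down hP.proj.to hP.dim hD hX hc
          (kinv_even' hP hcyc hX' hs₂ hH (by omega) h1.add_one)
          (fun h2 => ih (c + 2) h2 (by omega))
  exact fun c hc => key _ c hc le_rfl

/-- The sign conjecture for `X × P` implies the sign conjecture for `X`. -/
lemma sign_down (hs : SignStd W (X.prod P)) : SignStd W X := by
  have hPP := hP.proj.to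
  obtain ⟨Q, hQ, hQ'⟩ := hs
  have hQq : QOp W (X.prod P) (X.prod P) 0 (W.corr (W.cl _ Q)) :=
    QOp.gen (p := (X.prod P).dim) (by simp) hQ
  have hT : QOp W X X 0 (coe W X h 0 ∘ₗ (W.corr (W.cl _ Q) ∘ₗ inc W X h 0)) :=
    ((qop_coe (W := W) (X := X) hPP (a := 0) (Nat.zero_le _)).comp
      (hQq.comp (qop_inc (W := W) (X := X) hPP 0))).cast (by simp)
  obtain ⟨z, hz, hz'⟩ := cyc_of_rop (rop_iff.2 hT)
  refine ⟨z, hz, fun j x hx => ?_⟩
  rw [hz', LinearMap.comp_apply, LinearMap.comp_apply]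
  have hm : inc W X h 0 x ∈ W.gr (X.prod P) j := by
    have h1 : inc W X h 0 x ∈ W.gr (X.prod P) (2 * 0 + j) := by
      rw [inc_apply]
      exact W.mul_mem (W.map_mem _ (t_mem hPP 0)) (W.map_mem _ hx)
    simpa using h1
  rw [hQ' j _ hm]
  split_ifs
  · rw [line_coe hP (by omega), if_pos rfl]
  · rw [map_zero]

end Line

/-- **The sign conjecture for `X` follows from the sign conjecture for a generic hyperplane section
of `X × X`.** -/
theorem sign_of_section {k' : Type u} [Field k'] {𝒱' : VarClass k'} {ops' : CycleOps 𝒱'}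
    {W' : WeilCohomology.{u, v} ops'} (hD : X.IsCyc 1 D) (hX : HardLefschetz W X D)
    (hn : 1 ≤ X.dim) {E : (X.prod X).Cycles} (hE : (X.prod X).IsCyc 1 E)
    (S : GenericSection W W' (X.prod X) E) (h : SignStd W' S.Z) : SignStd W X := by
  have hdim := S.dim_eq
  rw [dim_prod] at hdim
  by_cases h1 : (1 : W.H X) = 0
  · refine ⟨0, SmVar.IsCyc.zero _ _, fun j a _ => ?_⟩
    have h2 : ∀ x : W.H X, x = 0 := fun x => by rw [← one_mul x, h1, zero_mul]
    rw [h2 (W.corr _ a), h2 a, ite_self]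
  obtain ⟨Q, hQ, hQ'⟩ := h
  have hz : ActsByScalars W' S.Z (fun j => if Even j then 1 else 0) Q := by
    refine .of hQ fun j x hx => ?_
    rw [hQ' j x hx]
    by_cases hj : Even j
    · simp [hj]
    · simp [hj]
  obtain ⟨ζ, hζ, hζa⟩ := exists_scalars S hE hz
  have hTa : ∀ j ≤ S.Z.dim, ∀ a ∈ W.gr (X.prod X) j, W.corr (W.cl _ ζ) (W.cl _ E * a) =
      if Even j then a else 0 := by
    intro j hj a ha
    rw [hζa j hj a ha]
    beta_reduce
    have hodd : ¬ Even S.Z.dim := by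
      rw [Nat.even_iff]; omega
    rw [if_neg hodd, sub_zero]
    by_cases hj : Even j
    · simp [hj]
    · simp [hj]
  have hT : QOp W (X.prod X) (X.prod X) (-1) (W.corr (W.cl _ ζ)) :=
    QOp.gen (p := S.Z.dim) (by rw [dim_prod]; omega) hζ
  set ξ := W.cl X D with hξ
  have hfund := divPow_mem (ops := ops) hD X.dim X.V.fundCycle_mem
  rw [zero_add] at hfund
  have hcl : W.cl X (divPow ops D X.dim X.V.fundCycle) = ξ ^ X.dim := by
    rw [cl_divPow, W.cl_fund, mulLeft_pow_apply, mul_one]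
  obtain ⟨q, hq⟩ : ∃ q : ℚ, W.tr X (ξ ^ X.dim) = (q : W.K) :=
    ⟨_, by rw [← hcl]; exact W.tr_cl hfund⟩
  have hq0 : (q : W.K) ≠ 0 := by
    rw [← hq]
    exact X310.Mom.tr_pow_ne hD hX h1
  have hξm : ξ ^ X.dim ∈ W.gr X (2 * X.dim) := by
    rw [← hcl]; exact W.cl_mem hfund
  set U : W.H X →ₗ[W.K] W.H X :=
    W.push (fst X X) ∘ₗ (LinearMap.mulLeft W.K (W.cl _ (ops.pull (snd X X) D) ^ X.dim) ∘ₗ
      (W.corr (W.cl _ ζ) ∘ₗ (LinearMap.mulLeft W.K (W.cl _ E) ∘ₗ
        (W.map (fst X X)).toLinearMap))) with hU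
  have hUq : QOp W X X 0 U := by
    have h2 := (qop_push (W := W) (fst X X)).comp
      ((qop_mul_pow (W := W) (ops.pull_mem (snd X X) hD) X.dim).comp
        (hT.comp ((qop_mul (W := W) hE).comp (qop_pull (W := W) (fst X X)))))
    refine h2.cast ?_
    rw [dim_prod]
    push_cast; ring
  have hUa : ∀ j ≤ S.Z.dim, ∀ a ∈ W.gr X j, U a = if Even j then (q : W.K) • a else 0 := by
    intro j hj a ha
    have h2 : U a = W.push (fst X X) (W.cl _ (ops.pull (snd X X) D) ^ X.dim *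
        W.corr (W.cl _ ζ) (W.cl _ E * W.map (fst X X) a)) := rfl
    rw [h2, hTa j hj _ (W.map_mem _ ha)]
    split_ifs with hij
    · rw [W.cl_pull, ← map_pow, push_fst_mul hξm, hq]
    · rw [mul_zero, map_zero]
  set P : W.H X →ₗ[W.K] W.H X :=
    W.corr (W.cl _ (ops.pull (snd X X) (divPow ops D X.dim X.V.fundCycle))) with hP
  have hPq : QOp W X X 0 P :=
    QOp.gen (p := X.dim) (by simp) (ops.pull_mem _ hfund)
  have hPa : ∀ a : W.H X, P a = W.tr X a • ξ ^ X.dim := by
    intro a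
    rw [hP, corr_apply, W.cl_pull, hcl, W.even_comm (W.map_mem _ hξm), push_snd]
  set T : W.H X →ₗ[W.K] W.H X :=
    ((q⁻¹ : ℚ) : W.K) • (U ∘ₗ (LinearMap.id - ((q⁻¹ : ℚ) : W.K) • P)) +
      ((q⁻¹ : ℚ) : W.K) • P with hTdef
  have hTq : QOp W X X 0 T :=
    (((hUq.comp (qop_sub qop_id (hPq.smul _))).cast (by ring)).smul _).add (hPq.smul _)
  obtain ⟨z, hzc, hz'⟩ := cyc_of_rop (rop_iff.2 hTq)
  refine ⟨z, hzc, fun j a ha => ?_⟩
  rw [hz', hTdef, LinearMap.add_apply, LinearMap.smul_apply, LinearMap.comp_apply,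
    LinearMap.sub_apply, LinearMap.smul_apply, LinearMap.id_apply, hPa]
  by_cases hj : j = 2 * X.dim
  · subst hj
    have h2 : a - ((q⁻¹ : ℚ) : W.K) • (W.tr X a • ξ ^ X.dim) = 0 := by
      apply X310.tr_top_inj
      · exact Submodule.sub_mem _ ha (Submodule.smul_mem _ _ (Submodule.smul_mem _ _ hξm))
      · rw [map_sub, map_smul, map_smul, hq, smul_eq_mul, smul_eq_mul, Rat.cast_inv]
        field_simp
        ring
    rw [h2, map_zero, smul_zero, zero_add, if_pos (even_two_mul _)]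
    exact (sub_eq_zero.1 h2).symm
  · rw [W.tr_eq_zero ha hj, zero_smul, smul_zero, sub_zero, add_zero]
    by_cases hj2 : 2 * X.dim < j
    · rw [W.gr_eq_bot X j hj2] at ha
      rw [(Submodule.mem_bot _).1 ha, map_zero, smul_zero, ite_self]
    · rw [hUa j (by omega) a ha]
      split_ifs with hij
      · rw [smul_smul, Rat.cast_inv, inv_mul_cancel₀ hq0, one_smul]
      · rw [smul_zero]

lemma IsProjectiveLine.toLine (hP : IsProjectiveLine W P h) : X310.IsLine W P h := by
  refine ⟨hP.dim, ⟨hP.div, ?_, fun x => ?_⟩⟩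
  · rw [hP.dim, pow_one]
    exact hP.deg
  · obtain ⟨a, b, rfl⟩ := hP.span x
    refine Submodule.add_mem _ (Submodule.smul_mem _ _ (Submodule.subset_span ⟨0, ?_⟩))
      (Submodule.smul_mem _ _ (Submodule.subset_span ⟨1, ?_⟩))
    · exact pow_zero _
    · exact pow_one _

/-- **The equivalences.** -/
theorem one_tfae {k₁ : Type u} [Field k₁] {𝒱₁ : VarClass k₁} {ops₁ : CycleOps 𝒱₁}
    {W₁ : WeilCohomology.{u, v} ops₁} {k₂ : Type u} [Field k₂] {𝒱₂ : VarClass k₂}
    {ops₂ : CycleOps 𝒱₂} {W₂ : WeilCohomology.{u, v} ops₂}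
    (hD : X.IsCyc 1 D) (hX : HardLefschetz W X D) (hn : 1 ≤ X.dim) (hP : X310.IsLine W P h)
    (S₁ : GenericSection W W₁ (X.prod X) (sumDiv ops D D))
    (S₂ : GenericSection W W₂ (((X.prod P).prod P).prod ((X.prod P).prod P))
      (sumDiv ops (sumDiv ops (sumDiv ops D h) h) (sumDiv ops (sumDiv ops D h) h))) :
    List.TFAE [LefschetzB W X D, SignStd W₂ S₂.Z, KunnethStd W₁ S₁.Z,
      KunnethStd W X ∧ Separates W₁ S₁.Z, SignStd W X ∧ Separates W₂ S₂.Z] := by
  have ht := tfae' hD hX hn S₁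
  have hcyc : (X.prod P).IsCyc 1 (sumDiv ops D h) := isCyc_sumDiv hD hP.proj.to.div
  have hcyc' : ((X.prod P).prod P).IsCyc 1 (sumDiv ops (sumDiv ops D h) h) :=
    isCyc_sumDiv hcyc hP.proj.to.div
  have hX' := hP.hard_prod hD hX
  have hX'' := hP.hard_prod hcyc hX'
  have hdim : (X.prod P).dim = X.dim + 1 := by rw [dim_prod X P, hP.dim]
  have hdim' : ((X.prod P).prod P).dim = X.dim + 1 + 1 := by
    rw [dim_prod (X.prod P) P, hdim, hP.dim]
  tfae_have 1 ↔ 3 := ht.out 0 1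
  tfae_have 1 ↔ 4 := ht.out 0 3
  tfae_have 1 → 2 := by
    intro hB
    have hBP : LefschetzB W P h := lefschetzB_line hP
    have hB' : LefschetzB W (X.prod P) (sumDiv ops D h) :=
      X310.Mom.lefschetzB_prod hD hP.proj.to.div hX hP.hard hB hBP
    have hB'' : LefschetzB W ((X.prod P).prod P) (sumDiv ops (sumDiv ops D h) h) :=
      X310.Mom.lefschetzB_prod hcyc hP.proj.to.div hX' hP.hard hB' hBP
    exact sign_of_kunneth (kunneth_section S₂ (isCyc_sumDiv hcyc' hcyc')
        (TH125.Gal.hardLefschetz_prod hcyc' hcyc' hX'' hX'')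
        (X310.Mom.lefschetzB_prod hcyc' hcyc' hX'' hX'' hB'' hB''))
  tfae_have 2 → 5 := fun h2 =>
    ⟨sign_down hP (sign_down hP (sign_of_section hcyc' hX'' (by omega)
      (isCyc_sumDiv hcyc' hcyc') S₂ h2)), separates_of_sign h2⟩
  tfae_have 5 → 1 := fun h2 =>
    lefschetzB_of_half hP hD hX h2.1 (half_of_section hcyc' (by omega) S₂ h2.2)
  tfae_finish

end Pool.Agent.N209.GS
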