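import Pool.Agent.N209.GS.Sl
import Pool.Agent.N209.GS.Alg

/-!
# The conjecture B in the degrees of one parity from the sign conjecture
-/

set_option autoImplicit false

open CategoryTheory AlgebraicGeometry Finset

universe u v

namespace Pool.Agent.N209.GS

open Pool.Agent.H914 Pool.Agent.H447 Pool.Agent.W534 Pool.Agent.TH720.LB VarClass Obj
  WeilCohomology

section Lin

variable {K : Type*} [Field K] [CharZero K] {V : Type*} [AddCommGroup V] [Module K V]
  {gr : ℕ → Submodule K V} {n : ℕ} {L : Module.End K V}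

/-- An operator `f` of degree `-2` for which `L f + f L` is the projector onto the degrees of the
parity opposite to `n`. -/
lemma exists_half [Module.Finite K V] (h : DirectSum.IsInternal gr) (hL : IsHom gr 2 L)
    (hbd : ∀ i, 2 * n + 1 ≤ i → gr i = ⊥) (hHL : HardLef gr n L) :
    ∃ f : Module.End K V, IsHom gr (-2) f ∧
      L * f + f * L = scal h (fun j => if (j + n) % 2 = 1 then 1 else 0) := by
  obtain ⟨Φ, hΦh, hΦ⟩ := exists_isLam h hL hbd hHL
  set κ : ℕ → ℕ → K := fun i j => if (i + n) % 2 = 1 ∧ j % 2 = 1 then 1 else 0 with hκ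
  set f : Module.End K V := ∑ i ∈ range (n + 1), ∑ j ∈ range (n - i + 1),
    κ i j • (Φ * eij h L Φ i j) with hf
  have hval : ∀ i ≤ n, ∀ a ∈ gr i, (L ^ (n - i + 1)) a = 0 → ∀ j ≤ n - i,
      f ((L ^ j) a) = κ i j • (L ^ (j - 1)) a := by
    intro i hi a ha hp j hj
    rw [hf, LinearMap.sum_apply, Finset.sum_eq_single i]
    · rw [LinearMap.sum_apply, Finset.sum_eq_single j]
      · rw [LinearMap.smul_apply, Module.End.mul_apply, eij_apply h hL hΦ hi ha hp hj,
          if_pos ⟨rfl, rfl⟩]
        rcases Nat.eq_zero_or_pos j with rfl | h0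
        · simp [hκ]
        · have := (hΦ i hi a ha hp).2 (j - 1) (by omega)
          rw [show j - 1 + 1 = j by omega] at this
          rw [this]
      · intro j' _ hj'
        rw [LinearMap.smul_apply, Module.End.mul_apply, eij_apply h hL hΦ hi ha hp hj,
          if_neg (by tauto), map_zero, smul_zero]
      · intro h'; exact absurd (Finset.mem_range.2 (by omega)) h'
    · intro i' _ hi'
      rw [LinearMap.sum_apply]
      apply Finset.sum_eq_zero
      intro j' _
      rw [LinearMap.smul_apply, Module.End.mul_apply, eij_apply h hL hΦ hi ha hp hj,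
        if_neg (by tauto), map_zero, smul_zero]
    · intro h'; exact absurd (Finset.mem_range.2 (by omega)) h'
  have hhom : IsHom gr (-2) f := by
    apply IsHom.sum
    intro i _
    apply IsHom.sum
    intro j _
    apply IsHom.smul
    have h1 : IsHom gr 0 (eij h L Φ i j) := by
      unfold eij
      have h2 := (isHom_one (gr := gr)).sub (by simpa using hL.mul hΦh)
      have h3 : IsHom gr 0 (proj h i) := isHom_scal h _
      have h4 := (hL.pow j).mul ((h2.mul h3).mul (hΦh.pow j))
      have e : (j : ℤ) * 2 + (0 + 0 + (j : ℤ) * (-2)) = 0 := by ring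
      rw [e] at h4
      exact h4
    simpa using hΦh.mul h1
  refine ⟨f, hhom, ?_⟩
  apply LinearMap.ext
  intro x
  refine lef_induction' h hL hbd hHL (p := fun x => (L * f + f * L) x =
    scal h (fun j => if (j + n) % 2 = 1 then (1 : K) else 0) x) ?_ ?_ x
  · intro a b ha hb; rw [map_add, map_add, ha, hb]
  · intro i hi a ha hp j
    by_cases hj : j ≤ n - i
    · rw [LinearMap.add_apply, Module.End.mul_apply, Module.End.mul_apply, hval i hi a ha hp j hj,
        ← Module.End.mul_apply L, ← pow_succ', scal_apply h _ (pow_L_mem hL ha j), map_smul]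
      have e1 : ((i + 2 * j + n) % 2 = 1) = ((i + n) % 2 = 1) := by
        rw [show i + 2 * j + n = i + n + 2 * j by ring, Nat.add_mul_mod_self_left]
      simp only [e1]
      have h1 : j ≠ 0 → L ((L ^ (j - 1)) a) = (L ^ j) a := by
        intro h0
        rw [← Module.End.mul_apply L, ← pow_succ', show j - 1 + 1 = j by omega]
      by_cases hpar : (i + n) % 2 = 1
      · by_cases hj2 : j % 2 = 1
        · have h2 : f ((L ^ (j + 1)) a) = 0 := by
            by_cases h3 : j + 1 ≤ n - i
            · rw [hval i hi a ha hp (j + 1) h3]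
              simp only [hκ]
              rw [if_neg (by omega), zero_smul]
            · rw [L_pow_gt hp (by omega), map_zero]
          rw [h2, add_zero, h1 (by omega)]
          simp only [hκ]
          rw [if_pos ⟨hpar, hj2⟩, if_pos hpar]
        · have h2 : f ((L ^ (j + 1)) a) = (L ^ j) a := by
            rw [hval i hi a ha hp (j + 1) (by omega)]
            simp only [hκ]
            rw [if_pos ⟨hpar, by omega⟩, one_smul, Nat.add_sub_cancel]
          rw [h2]
          simp only [hκ]
          rw [if_neg (by tauto), if_pos hpar, zero_smul, zero_add, one_smul]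
      · have h2 : f ((L ^ (j + 1)) a) = 0 := by
          by_cases h3 : j + 1 ≤ n - i
          · rw [hval i hi a ha hp (j + 1) h3]
            simp only [hκ]
            rw [if_neg (by tauto), zero_smul]
          · rw [L_pow_gt hp (by omega), map_zero]
        rw [h2]
        simp only [hκ]
        rw [if_neg (by tauto), if_neg hpar, zero_smul, zero_smul, add_zero]
    · rw [L_pow_gt hp (by omega), map_zero, map_zero]

end Lin

variable {k : Type u} [Field k] {𝒱 : VarClass k} {ops : CycleOps 𝒱}
  {W : WeilCohomology.{u, v} ops} {X P : 𝒱.Obj} {D : X.Cycles} {h : P.Cycles}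

/-- If a cycle on `(X × X) × (X × X)` inverts the cup product with `D × X + X × D` just below the
middle of `X × X`, then an operator of degree `-2` whose anticommutator with `L` is algebraic is
itself algebraic. -/
theorem kop_of_inverse (hD : X.IsCyc 1 D) (hn : 1 ≤ X.dim)
    {ζ : ((X.prod X).prod (X.prod X)).Cycles}
    (hζ : ((X.prod X).prod (X.prod X)).IsCyc ((X.prod X).dim - 1) ζ)
    (hinv : ∀ i, i + 2 = (X.prod X).dim → ∀ y ∈ W.gr (X.prod X) i,
      W.corr (W.cl _ ζ) (W.cl _ (sumDiv ops D D) * y) = y) {g : Module.End W.K (W.H X)}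
    (hg : IsHom (W.gr X) (-2) g)
    (ha : LinearMap.mulLeft W.K (W.cl X D) * g + g * LinearMap.mulLeft W.K (W.cl X D) ∈
      KOp W X X 0) : g ∈ KOp W X X (-1) := by
  obtain ⟨y, hy⟩ := exists_corr g
  have hyhom : IsHom (W.gr X) (2 * (((X.dim - 1 : ℕ) : ℤ) - X.dim)) (W.corr y) := by
    rw [hy]
    rwa [show (2 * (((X.dim - 1 : ℕ) : ℤ) - X.dim)) = -2 by omega]
  have hymem : y ∈ W.gr (X.prod X) (2 * (X.dim - 1)) := mem_gr_of_isHom hyhom
  have hcl : W.corr (W.cl _ (sumDiv ops D D) * y) = LinearMap.mulLeft W.K (W.cl X D) * g +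
      g * LinearMap.mulLeft W.K (W.cl X D) := by
    rw [X310.Mom.corr_sumDiv hD hD, hy]
    rfl
  obtain ⟨γ, hγ, hγ'⟩ := mem_KOp_iff.1 ha
  have hγy : γ = W.cl _ (sumDiv ops D D) * y := by
    have h1 : corrLin W X X (γ - W.cl _ (sumDiv ops D D) * y) = 0 := by
      rw [map_sub]
      apply sub_eq_zero.2
      change W.corr γ = W.corr _
      rw [hγ', hcl]
    exact sub_eq_zero.1 (corr_inj h1)
  have hyinv := hinv (2 * (X.dim - 1)) (by rw [dim_prod]; omega) y hymem
  rw [← hγy] at hyinv
  have hyspan : y ∈ spanCycles W (X.prod X) ((X.dim - 1 : ℕ) : ℤ) := by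
    rw [← hyinv]
    refine corr_span hζ (q := X.dim) ?_ (by rw [dim_prod]; omega)
    rwa [add_zero] at hγ
  refine mem_KOp_iff.2 ⟨y, ?_, hy⟩
  rwa [show (X.dim : ℤ) + -1 = ((X.dim - 1 : ℕ) : ℤ) by omega]

/-- The projectors onto the degrees of one parity. -/
lemma rop_parity (hs : SignStd W X) (m : ℕ) :
    ROp W X 0 (scal (W.isInternal X) (fun j => if (j + m) % 2 = 1 then (1 : W.K) else 0)) := by
  obtain ⟨Q, hQ, hQ'⟩ := hs
  rcases Nat.even_or_odd m with hm | hm
  · have h1 : scal (W.isInternal X) (fun j => if (j + m) % 2 = 1 then (1 : W.K) else 0) =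
        1 - W.corr (W.cl _ Q) := by
      apply gr_ext (W.isInternal X)
      intro j a ha
      rw [scal_apply _ _ ha, LinearMap.sub_apply, Module.End.one_apply, hQ' j a ha]
      rw [Nat.even_iff] at hm
      by_cases hj : Even j
      · rw [if_pos hj]
        rw [Nat.even_iff] at hj
        rw [if_neg (by omega), zero_smul, sub_self]
      · rw [if_neg hj]
        rw [Nat.even_iff] at hj
        rw [if_pos (by omega), one_smul, sub_zero]
    rw [h1]
    exact rop_opAlg.sub rop_opAlg.one (rop_of_cyc hQ)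
  · have h1 : scal (W.isInternal X) (fun j => if (j + m) % 2 = 1 then (1 : W.K) else 0) =
        W.corr (W.cl _ Q) := by
      apply gr_ext (W.isInternal X)
      intro j a ha
      rw [scal_apply _ _ ha, hQ' j a ha]
      rw [Nat.odd_iff] at hm
      by_cases hj : Even j
      · rw [if_pos hj]
        rw [Nat.even_iff] at hj
        rw [if_pos (by omega), one_smul]
      · rw [if_neg hj]
        rw [Nat.even_iff] at hj
        rw [if_neg (by omega), zero_smul]
    rw [h1]
    exact rop_of_cyc hQ

/-- **The relations from the sign conjecture.** -/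
theorem exists_rel {k' : Type u} [Field k'] {𝒱' : VarClass k'} {ops' : CycleOps 𝒱'}
    {W' : WeilCohomology.{u, v} ops'} (hD : X.IsCyc 1 D) (hX : HardLefschetz W X D)
    (hP : X310.IsLine W P h) (hs : SignStd W (X.prod P))
    (S : GenericSection W W' ((X.prod P).prod (X.prod P))
      (sumDiv ops (sumDiv ops D h) (sumDiv ops D h))) (hS : Separates W' S.Z) :
    ∃ p q, p ∈ KOp W X X (-1) ∧
      Rel (W.gr X) X.dim (LinearMap.mulLeft W.K (W.cl X D)) p q := by
  have hPP := hP.proj.to
  have hdim : (X.prod P).dim = X.dim + 1 := by rw [dim_prod X P, hP.dim]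
  have hcyc : (X.prod P).IsCyc 1 (sumDiv ops D h) := isCyc_sumDiv hD hPP.div
  have hHL' := hP.hard_prod hD hX
  obtain ⟨ζ, hζ, hinv⟩ := exists_inverse S (isCyc_sumDiv hcyc hcyc) hS
  obtain ⟨f, hfh, hf⟩ := exists_half (W.isInternal (X.prod P)) (isHom_mulLeft W hcyc) W_hbd hHL'
  have hfK : f ∈ KOp W (X.prod P) (X.prod P) (-1) := by
    refine kop_of_inverse hcyc (by omega) hζ hinv hfh ?_
    rw [hf]
    exact mem_KS_iff.1 (Submodule.subset_span (rop_parity hs _))
  have hfa : ∀ j, (j + X.dim) % 2 = 0 → ∀ y ∈ W.gr (X.prod P) j,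
      W.cl _ (sumDiv ops D h) * f y + f (W.cl _ (sumDiv ops D h) * y) = y := by
    intro j hj y hy
    have h1 := congrArg (fun F => F y) hf
    simp only [LinearMap.add_apply, Module.End.mul_apply, LinearMap.mulLeft_apply] at h1
    rw [h1, scal_apply _ _ hy, if_pos (by rw [hdim]; omega), one_smul]
  have hdec : ∀ y : W.H (X.prod P), inc W X h 0 (coe W X h 0 y) + inc W X h 1 (coe W X h 1 y) =
      y := by
    intro y
    have h1 := decomp hPP y
    rw [hP.dim, Finset.sum_range_succ, Finset.sum_range_one] at h1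
    exact h1
  have hinc2 : ∀ x : W.H X, inc W X h (1 + 1) x = 0 := by
    intro x
    rw [inc_zero hPP (by rw [hP.dim]; omega), LinearMap.zero_apply]
  have hcoe0 : ∀ x : W.H X, coe W X h 0 (inc W X h 0 x) = x := by
    intro x
    rw [coe_inc hPP (Nat.zero_le _), if_pos rfl]
  have hcoe1 : ∀ x : W.H X, coe W X h 0 (inc W X h 1 x) = 0 := by
    intro x
    rw [coe_inc hPP (Nat.zero_le _), if_neg (by omega)]
  -- the effect of the product with the divisor
  have hmul : ∀ y : W.H (X.prod P), coe W X h 0 (W.cl _ (sumDiv ops D h) * y) =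
      W.cl X D * coe W X h 0 y := by
    intro y
    conv_lhs => rw [← hdec y]
    rw [mul_add, mul_inc hD, mul_inc hD, hinc2, map_add, map_add, map_add, hcoe0, hcoe1, hcoe1,
      map_zero, add_zero, add_zero, add_zero]
  have hinc_mem : ∀ {j : ℕ} {x : W.H X} (a : ℕ), x ∈ W.gr X j →
      inc W X h a x ∈ W.gr (X.prod P) (2 * a + j) := by
    intro j x a hx
    rw [inc_apply]
    exact W.mul_mem (W.map_mem _ (t_mem hPP a)) (W.map_mem _ hx)
  have hi0 : inc W X h 0 ∈ KOp W X (X.prod P) 0 := (qop_inc hPP 0).kop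
  have hi1 : inc W X h 1 ∈ KOp W X (X.prod P) 1 := (qop_inc hPP 1).kop
  have hc0 : coe W X h 0 ∈ KOp W (X.prod P) X 0 := by
    have := (qop_coe (W := W) (X := X) hPP (a := 0) (Nat.zero_le _)).kop
    simpa using this
  set p : Module.End W.K (W.H X) := coe W X h 0 ∘ₗ (f ∘ₗ inc W X h 0) with hp
  set q : Module.End W.K (W.H X) := coe W X h 0 ∘ₗ (f ∘ₗ inc W X h 1) with hq
  have hpK : p ∈ KOp W X X (-1) := KOp.cast (KOp.comp hc0 (KOp.comp hfK hi0)) (by ring)
  have hqK : q ∈ KOp W X X 0 := KOp.cast (KOp.comp hc0 (KOp.comp hfK hi1)) (by ring)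
  refine ⟨p, q, hpK, ⟨?_, ?_, ?_, ?_⟩⟩
  · intro i a ha
    have := KOp.isHom hpK i a ha
    simpa using this
  · intro i a ha
    have := KOp.isHom hqK i a ha
    simpa using this
  · intro j hj x hx
    have h1 := hfa j hj (inc W X h 0 x) (by simpa using hinc_mem 0 hx)
    have h2 := congrArg (coe W X h 0) h1
    rw [map_add, hmul, mul_inc hD, map_add, map_add, zero_add, hcoe0] at h2
    rw [LinearMap.mulLeft_apply, LinearMap.mulLeft_apply]
    have h3 : W.cl X D * p x + (p (W.cl X D * x) + q x) = x := h2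
    rw [← add_assoc] at h3
    rw [eq_sub_iff_add_eq]
    exact h3
  · intro j hj x hx
    have h1 := hfa (2 * 1 + j) (by omega) (inc W X h 1 x) (hinc_mem 1 hx)
    have h2 := congrArg (coe W X h 0) h1
    rw [map_add, hmul, mul_inc hD, hinc2, add_zero, hcoe1] at h2
    rw [LinearMap.mulLeft_apply, LinearMap.mulLeft_apply]
    exact h2

end Pool.Agent.N209.GS
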