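import Pool.Agent.N209.GS.Par
import Pool.Agent.N209.GS.Low

/-!
# The conjecture B from the sign conjecture
-/

set_option autoImplicit false

open CategoryTheory AlgebraicGeometry Finset

universe u v

namespace Pool.Agent.N209.GS

open Pool.Agent.H914 Pool.Agent.H447 Pool.Agent.W534 Pool.Agent.TH720.LB VarClass Obj
  WeilCohomology

variable {k : Type u} [Field k] {𝒱 : VarClass k} {ops : CycleOps 𝒱}
  {W : WeilCohomology.{u, v} ops} {X P : 𝒱.Obj} {D : X.Cycles} {h : P.Cycles}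

/-- The inverses of the Lefschetz operators in the degrees of the parity of `dim X`. -/
theorem kinv_even {k' : Type u} [Field k'] {𝒱' : VarClass k'} {ops' : CycleOps 𝒱'}
    {W' : WeilCohomology.{u, v} ops'} (hD : X.IsCyc 1 D) (hX : HardLefschetz W X D)
    (hP : X310.IsLine W P h) (hs : SignStd W (X.prod P))
    (S : GenericSection W W' ((X.prod P).prod (X.prod P))
      (sumDiv ops (sumDiv ops D h) (sumDiv ops D h))) (hS : Separates W' S.Z) {c : ℕ}
    (hc : c ≤ X.dim) (hce : Even c) : X310.Gap.KInv W X D c := by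
  obtain ⟨p, q, hp, r⟩ := exists_rel hD hX hP hs S hS
  apply X310.Gap.kinv_of_inj hD hX hc
  have hOA := (rop_opAlg (W := W) (X := X)).kspan
  have hpc : p ^ c ∈ KOp W X X (-(c : ℤ)) := by
    rw [← mem_KS_iff]
    exact hOA.cast (hOA.pow (mem_KS_iff.2 hp) c) (by ring)
  obtain ⟨γ, hγ, hγ'⟩ := mem_KOp_iff.1 hpc
  refine ⟨γ, hγ, fun x hx h0 => r.pow_inj (isHom_mulLeft W hD) hX (W.isInternal X) W_hbd hc hce
    hx ?_⟩
  rw [← hγ']
  exact h0

/-- **The conjecture B from the sign conjecture.** -/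
theorem lefschetzB_of_sign {k₁ : Type u} [Field k₁] {𝒱₁ : VarClass k₁} {ops₁ : CycleOps 𝒱₁}
    {W₁ : WeilCohomology.{u, v} ops₁} {k₂ : Type u} [Field k₂] {𝒱₂ : VarClass k₂}
    {ops₂ : CycleOps 𝒱₂} {W₂ : WeilCohomology.{u, v} ops₂}
    (hD : X.IsCyc 1 D) (hX : HardLefschetz W X D) (hP : X310.IsLine W P h)
    (hs₁ : SignStd W (X.prod P)) (S₁ : GenericSection W W₁ ((X.prod P).prod (X.prod P))
      (sumDiv ops (sumDiv ops D h) (sumDiv ops D h))) (hS₁ : Separates W₁ S₁.Z)
    (hs₂ : SignStd W ((X.prod P).prod P))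
    (S₂ : GenericSection W W₂ (((X.prod P).prod P).prod ((X.prod P).prod P))
      (sumDiv ops (sumDiv ops (sumDiv ops D h) h) (sumDiv ops (sumDiv ops D h) h)))
    (hS₂ : Separates W₂ S₂.Z) : LefschetzB W X D := by
  have hcyc : (X.prod P).IsCyc 1 (sumDiv ops D h) := isCyc_sumDiv hD hP.proj.to.div
  have hX' := hP.hard_prod hD hX
  have hdim : (X.prod P).dim = X.dim + 1 := by rw [dim_prod X P, hP.dim]
  refine (X310.lefschetzB_iff_kinv hD hX).2 ?_
  have key : ∀ r c, c ≤ X.dim → X.dim - c ≤ r → X310.Gap.KInv W X D c := by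
    intro r
    induction r with
    | zero =>
      intro c hc hr
      rcases Nat.even_or_odd c with h1 | h1
      · exact kinv_even hD hX hP hs₁ S₁ hS₁ hc h1
      · exact X310.Gap.down hP.proj.to hP.dim hD hX hc
          (kinv_even hcyc hX' hP hs₂ S₂ hS₂ (by omega) h1.add_one) (by intro h; omega)
    | succ r ih =>
      intro c hc hr
      rcases Nat.even_or_odd c with h1 | h1
      · exact kinv_even hD hX hP hs₁ S₁ hS₁ hc h1
      · exact X310.Gap.down hP.proj.to hP.dim hD hX hc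
          (kinv_even hcyc hX' hP hs₂ S₂ hS₂ (by omega) h1.add_one)
          (fun h2 => ih (c + 2) h2 (by omega))
  exact fun c hc => key _ c hc le_rfl

/-- The sign conjecture for the product with a line. -/
lemma sign_prod (hP : X310.IsLine W P h) (hs : SignStd W X) : SignStd W (X.prod P) := by
  have hPP := hP.proj.to
  obtain ⟨Q, hQ, hQ'⟩ := hs
  have hQq : QOp W X X 0 (W.corr (W.cl _ Q)) := QOp.gen (p := X.dim) (by simp) hQ
  set T : W.H (X.prod P) →ₗ[W.K] W.H (X.prod P) :=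
    inc W X h 0 ∘ₗ (W.corr (W.cl _ Q) ∘ₗ coe W X h 0) +
      inc W X h 1 ∘ₗ (W.corr (W.cl _ Q) ∘ₗ coe W X h 1) with hT
  have hTq : QOp W (X.prod P) (X.prod P) 0 T := by
    refine QOp.add ?_ ?_
    · exact ((qop_inc hPP 0).comp (hQq.comp (qop_coe hPP (Nat.zero_le _)))).cast (by simp)
    · exact ((qop_inc hPP 1).comp (hQq.comp (qop_coe hPP (by rw [hP.dim])))).cast (by simp)
  obtain ⟨z, hz, hz'⟩ := cyc_of_rop (rop_iff.2 hTq)
  refine ⟨z, hz, fun j y hy => ?_⟩
  rw [hz']
  have hdec : inc W X h 0 (coe W X h 0 y) + inc W X h 1 (coe W X h 1 y) = y := by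
    have h1 := decomp hPP y
    rw [hP.dim, Finset.sum_range_succ, Finset.sum_range_one] at h1
    exact h1
  have hpar : ∀ (a : ℕ) (b : ℤ), (coe W X h a y ∈ grZ (W.gr X) (j + 2 * b)) →
      W.corr (W.cl _ Q) (coe W X h a y) = if Even j then coe W X h a y else 0 := by
    intro a b hm
    by_cases h0 : 0 ≤ (j : ℤ) + 2 * b
    · obtain ⟨m, hm'⟩ := Int.eq_ofNat_of_zero_le h0
      rw [hm'] at hm
      have hm2 : coe W X h a y ∈ W.gr X m := by
        rwa [grZ_natCast] at hm
      rw [hQ' m _ hm2]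
      have h1 : Even m ↔ Even j := by
        have h2 : (m : ℤ) = j + 2 * b := hm'.symm
        rw [Nat.even_iff, Nat.even_iff]
        omega
      simp only [h1]
    · rw [grZ_of_neg (not_le.1 h0)] at hm
      rw [(Submodule.mem_bot _).1 hm, map_zero, ite_self]
  have hc0 := KOp.isHom (qop_coe (W := W) (X := X) hPP (a := 0) (Nat.zero_le _)).kop j y
    (by rw [grZ_natCast]; exact hy)
  have hc1 := KOp.isHom (qop_coe (W := W) (X := X) hPP (a := 1) (by rw [hP.dim])).kop j y
    (by rw [grZ_natCast]; exact hy)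
  rw [hT, LinearMap.add_apply, LinearMap.comp_apply, LinearMap.comp_apply, LinearMap.comp_apply,
    LinearMap.comp_apply, hpar 0 _ hc0, hpar 1 _ hc1]
  split_ifs
  · exact hdec
  · rw [map_zero, map_zero, add_zero]

/-- The conjecture B for a line. -/
lemma lefschetzB_line (hP : X310.IsLine W P h) : LefschetzB W P h := by
  apply lefschetzB_of_inj hP.proj.to.div hP.hard
  intro c hc
  have hdim := hP.dim
  have hc' : c = 0 ∨ c = 1 := by omega
  rcases hc' with rfl | rfl
  · exact ⟨LinearMap.id, KOp.cast (KOp.id P) (by simp), fun a _ h => h⟩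
  · refine ⟨W.corr (W.cl _ (P.prod P).V.fundCycle),
      KOp.gen (p := 0) (by rw [hdim]; norm_num) (P.prod P).V.fundCycle_mem, fun a ha h0 => ?_⟩
    rw [corr_apply, W.cl_fund, one_mul, push_snd'] at h0
    refine X310.tr_top_inj (by rw [hdim] at ha ⊢; exact ha) ?_
    have h1 := congrArg (fun x => W.tr P (W.cl P h * x)) h0
    have h2 := hP.proj.to.deg
    rw [hdim, pow_one] at h2
    simp only [mul_smul_comm, mul_one, mul_zero, map_smul, map_zero, smul_eq_mul, h2] at h1
    exact h1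

/-- **The equivalences.** -/
theorem main_tfae {k' : Type u} [Field k'] {𝒱' : VarClass k'} {ops' : CycleOps 𝒱'}
    {W' : WeilCohomology.{u, v} ops'}
    {k₁ : Type u} [Field k₁] {𝒱₁ : VarClass k₁} {ops₁ : CycleOps 𝒱₁}
    {W₁ : WeilCohomology.{u, v} ops₁} {k₂ : Type u} [Field k₂] {𝒱₂ : VarClass k₂}
    {ops₂ : CycleOps 𝒱₂} {W₂ : WeilCohomology.{u, v} ops₂}
    (hD : X.IsCyc 1 D) (hX : HardLefschetz W X D) (hn : 1 ≤ X.dim) (hP : X310.IsLine W P h)
    (S : GenericSection W W' (X.prod X) (sumDiv ops D D))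
    (S₁ : GenericSection W W₁ ((X.prod P).prod (X.prod P))
      (sumDiv ops (sumDiv ops D h) (sumDiv ops D h)))
    (S₂ : GenericSection W W₂ (((X.prod P).prod P).prod ((X.prod P).prod P))
      (sumDiv ops (sumDiv ops (sumDiv ops D h) h) (sumDiv ops (sumDiv ops D h) h))) :
    List.TFAE [LefschetzB W X D, KunnethStd W' S.Z, KunnethStd W X ∧ SignStd W' S.Z,
      SignStd W X ∧ SignStd W₁ S₁.Z ∧ SignStd W₂ S₂.Z] := by
  have ht := tfae' hD hX hn S
  have hcyc : (X.prod P).IsCyc 1 (sumDiv ops D h) := isCyc_sumDiv hD hP.proj.to.div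
  have hcyc' : ((X.prod P).prod P).IsCyc 1 (sumDiv ops (sumDiv ops D h) h) :=
    isCyc_sumDiv hcyc hP.proj.to.div
  have hX' := hP.hard_prod hD hX
  have hX'' := hP.hard_prod hcyc hX'
  tfae_have 1 ↔ 2 := ht.out 0 1
  tfae_have 1 ↔ 3 := ht.out 0 2
  tfae_have 1 → 4 := by
    intro hB
    have hBP : LefschetzB W P h := lefschetzB_line hP
    have hB' : LefschetzB W (X.prod P) (sumDiv ops D h) :=
      X310.Mom.lefschetzB_prod hD hP.proj.to.div hX hP.hard hB hBP
    have hB'' : LefschetzB W ((X.prod P).prod P) (sumDiv ops (sumDiv ops D h) h) :=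
      X310.Mom.lefschetzB_prod hcyc hP.proj.to.div hX' hP.hard hB' hBP
    exact ⟨sign_of_kunneth (kunneth_of_B hD hX hB),
      sign_of_kunneth (kunneth_section S₁ (isCyc_sumDiv hcyc hcyc)
        (TH125.Gal.hardLefschetz_prod hcyc hcyc hX' hX')
        (X310.Mom.lefschetzB_prod hcyc hcyc hX' hX' hB' hB')),
      sign_of_kunneth (kunneth_section S₂ (isCyc_sumDiv hcyc' hcyc')
        (TH125.Gal.hardLefschetz_prod hcyc' hcyc' hX'' hX'')
        (X310.Mom.lefschetzB_prod hcyc' hcyc' hX'' hX'' hB'' hB''))⟩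
  tfae_have 4 → 1 := by
    rintro ⟨h0, h1, h2⟩
    have hs₁ := sign_prod hP h0
    exact lefschetzB_of_sign hD hX hP hs₁ S₁ (separates_of_sign h1)
      (sign_prod hP hs₁) S₂ (separates_of_sign h2)
  tfae_finish

end Pool.Agent.N209.GS
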