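import Pool.Agent.N209.GS.Fwd
import Pool.Agent.X310.Mom5

/-!
# The lowering operator from one inverse on the square
-/

set_option autoImplicit false

open CategoryTheory AlgebraicGeometry Finset

universe u v

namespace Pool.Agent.N209.GS

open Pool.Agent.H914 Pool.Agent.H447 Pool.Agent.TH720.LB VarClass Obj WeilCohomology

variable {k : Type u} [Field k] {𝒱 : VarClass k} {ops : CycleOps 𝒱}
  {W : WeilCohomology.{u, v} ops} {X : 𝒱.Obj} {D : X.Cycles}

/-- In dimension zero there is nothing to prove. -/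
lemma lefschetzB_zero (hn : X.dim = 0) : LefschetzB W X D := by
  rw [lefschetzB_iff_rop]
  refine ⟨0, rop_opAlg.zero _, ?_⟩
  intro i hi a _ _
  refine ⟨rfl, fun j hj => ?_⟩
  omega

/-- The signs `1, 1, -1, -1, 1, 1, ...`. -/
noncomputable def tau (W : WeilCohomology.{u, v} ops) (X : 𝒱.Obj) : Module.End W.K (W.H X) :=
  scal (W.isInternal X) (fun j => (((-1 : ℚ) ^ (j / 2) : ℚ) : W.K))

lemma tau_mul_tau : tau W X * tau W X = 1 := by
  rw [tau, scal_mul, ← scal_one (W.isInternal X)]
  congr 1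
  funext j
  rw [← Rat.cast_mul, ← pow_add, ← two_mul, pow_mul]
  norm_num

lemma mul_tau (hD : X.IsCyc 1 D) :
    LinearMap.mulLeft W.K (W.cl X D) * tau W X = -(tau W X * LinearMap.mulLeft W.K (W.cl X D)) := by
  apply gr_ext (W.isInternal X)
  intro i a ha
  have h1 : W.cl X D * a ∈ W.gr X (2 * 1 + i) := W.mul_mem (W.cl_mem hD) ha
  rw [LinearMap.neg_apply, Module.End.mul_apply, Module.End.mul_apply, LinearMap.mulLeft_apply,
    LinearMap.mulLeft_apply, tau, scal_apply _ _ ha, scal_apply _ _ h1, mul_smul_comm, ← neg_smul]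
  congr 1
  rw [show (2 * 1 + i) / 2 = i / 2 + 1 by omega, pow_succ]
  push_cast
  ring

lemma comm_id {A : Type*} [Ring A] (L f τ w : A) (h1 : L * τ = -(τ * L))
    (h2 : L * f - f * L = w) : L * (f * τ) + (f * τ) * L = w * τ := by
  have h3 : τ * L = -(L * τ) := by rw [h1, neg_neg]
  rw [mul_assoc f τ L, h3, ← h2]
  noncomm_ring

/-- **The main step.** If the Kunneth projectors of `X` are algebraic and a cycle on
`(X × X) × (X × X)` inverts the cup product with `D × X + X × D` just below the middle of `X × X`,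
then the conjecture B holds for `X`. -/
theorem lefschetzB_of_inverse (hD : X.IsCyc 1 D) (hX : HardLefschetz W X D) (hn : 1 ≤ X.dim)
    (hK : KunnethStd W X) {ζ : ((X.prod X).prod (X.prod X)).Cycles}
    (hζ : ((X.prod X).prod (X.prod X)).IsCyc ((X.prod X).dim - 1) ζ)
    (hinv : ∀ i, i + 2 = (X.prod X).dim → ∀ y ∈ W.gr (X.prod X) i,
      W.corr (W.cl _ ζ) (W.cl _ (sumDiv ops D D) * y) = y) : LefschetzB W X D := by
  set L : Module.End W.K (W.H X) := LinearMap.mulLeft W.K (W.cl X D) with hL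
  obtain ⟨f, t, hfh, -⟩ := exists_sl2 (W.isInternal X) (isHom_mulLeft W hD) W_hbd hX
  -- the operator
  have hcomm : L * (f * tau W X) + (f * tau W X) * L = wt (W.isInternal X) X.dim * tau W X :=
    comm_id L f (tau W X) _ (mul_tau hD) t.ef
  obtain ⟨y, hy⟩ := exists_corr (f * tau W X)
  have hyhom : IsHom (W.gr X) (2 * (((X.dim - 1 : ℕ) : ℤ) - X.dim)) (W.corr y) := by
    rw [hy]
    have h1 : IsHom (W.gr X) (-2 + 0) (f * tau W X) := hfh.mul (isHom_scal _ _)
    rwa [show (2 * (((X.dim - 1 : ℕ) : ℤ) - X.dim)) = -2 + 0 by omega]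
  have hymem : y ∈ W.gr (X.prod X) (2 * (X.dim - 1)) := mem_gr_of_isHom hyhom
  have hcl : W.corr (W.cl _ (sumDiv ops D D) * y) = wt (W.isInternal X) X.dim * tau W X := by
    rw [X310.Mom.corr_sumDiv hD hD, hy, ← hcomm]
    rfl
  -- the weight operator times the signs is algebraic
  have hwt : wt (W.isInternal X) X.dim * tau W X ∈ KOp W X X 0 := by
    have h1 : wt (W.isInternal X) X.dim * tau W X =
        scal (W.isInternal X)
          (fun j => ((node X.dim j * (-1 : ℚ) ^ (j / 2) : ℚ) : W.K)) := by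
      rw [wt, tau, scal_mul]
      congr 1
      funext j
      push_cast
      ring
    rw [h1]
    exact mem_KS_iff.1 (Submodule.subset_span (rop_scal hK _))
  obtain ⟨γ, hγ, hγ'⟩ := mem_KOp_iff.1 hwt
  have hγy : γ = W.cl _ (sumDiv ops D D) * y := by
    have h1 : corrLin W X X (γ - W.cl _ (sumDiv ops D D) * y) = 0 := by
      rw [map_sub]
      apply sub_eq_zero.2
      change W.corr γ = W.corr _
      rw [hγ', hcl]
    exact sub_eq_zero.1 (corr_inj h1)
  have hyinv := hinv (2 * (X.dim - 1)) (by rw [dim_prod]; omega) y hymem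
  rw [← hγy] at hyinv
  have hyspan : y ∈ spanCycles W (X.prod X) ((X.dim - 1 : ℕ) : ℤ) := by
    rw [← hyinv]
    refine corr_span hζ (q := X.dim) ?_ (by rw [dim_prod]; omega)
    rwa [add_zero] at hγ
  have hg : f * tau W X ∈ KOp W X X (-1) := by
    refine mem_KOp_iff.2 ⟨y, ?_, hy⟩
    rwa [show (X.dim : ℤ) + -1 = ((X.dim - 1 : ℕ) : ℤ) by omega]
  have hτ : tau W X ∈ KOp W X X 0 := mem_KS_iff.1 (Submodule.subset_span (rop_scal hK _))
  have hf : f ∈ KOp W X X (-1) := by
    have h1 : f = (f * tau W X) * tau W X := by rw [mul_assoc, tau_mul_tau, mul_one]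
    rw [h1]
    exact KOp.cast (KOp.comp hg hτ) (by ring)
  exact X310.Mom.lefschetzB_of_low hD hX t hf

/-- **The conjecture B from the conjecture C for `X` and a cycle on the square of a generic
hyperplane section of `X × X`.** -/
theorem lefschetzB_of_separates {k' : Type u} [Field k'] {𝒱' : VarClass k'} {ops' : CycleOps 𝒱'}
    {W' : WeilCohomology.{u, v} ops'} (hD : X.IsCyc 1 D) (hX : HardLefschetz W X D)
    (hn : 1 ≤ X.dim) (S : GenericSection W W' (X.prod X) (sumDiv ops D D))
    (hK : KunnethStd W X) (hS : Separates W' S.Z) : LefschetzB W X D := by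
  obtain ⟨ζ, hζ, hinv⟩ := exists_inverse S (isCyc_sumDiv hD hD) hS
  exact lefschetzB_of_inverse hD hX hn hK hζ hinv

/-- The sign conjecture gives a separating cycle. -/
lemma separates_of_sign {Z : 𝒱.Obj} (h : SignStd W Z) : Separates W Z := by
  obtain ⟨P, hP, hP'⟩ := h
  refine ⟨fun i => if Even i then 1 else 0, P, .of hP fun i x hx => ?_, fun i _ => ?_⟩
  · rw [hP' i x hx]
    by_cases h1 : Even i
    · simp [h1]
    · simp [h1]
  · by_cases h1 : Even i
    · have h2 : ¬ Even (i + 1) := by rw [Nat.even_add_one]; exact not_not.2 h1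
      simp [h1, h2]
    · have h2 : Even (i + 1) := by rw [Nat.even_add_one]; exact h1
      simp [h1, h2]

end Pool.Agent.N209.GS
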